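import Pool.Agent.MOFunctions.Defs

open Filter Topology Finset

namespace Pool.Agent.MOFunctions

/-- sum over primes of `p^(-1-δ)` over any finite set is at most `log (2/δ)` for small `δ` -/
lemma prime_sum_bound : ∃ δ₀ : ℝ, 0 < δ₀ ∧ ∀ δ : ℝ, 0 < δ → δ < δ₀ → ∀ s : Finset ℕ,
    ∑ p ∈ s with p.Prime, (p : ℝ) ^ (-(1 + δ)) ≤ Real.log (2 / δ) := by
  have h := tendsto_sub_mul_tsum_nat_rpow
  have h2 : ∀ᶠ s : ℝ in 𝓝[>] 1, (s - 1) * ∑' (n : ℕ), 1 / (n : ℝ) ^ s < 2 :=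
    h.eventually_lt_const (by norm_num)
  rw [eventually_nhdsWithin_iff, Metric.eventually_nhds_iff] at h2
  obtain ⟨δ₀, hδ₀, h3⟩ := h2
  refine ⟨δ₀, hδ₀, fun δ hδ hδ2 s => ?_⟩
  have h4 := @h3 (1 + δ) (by simp [abs_of_pos hδ, hδ2]) (by simp [hδ])
  have h5 : ∑' (n : ℕ), 1 / (n : ℝ) ^ (1 + δ) < 2 / δ := by
    rw [lt_div_iff₀ hδ]
    have : (1 + δ - 1) = δ := by ring
    rw [this] at h4
    linarith
  let g : ℕ →*₀ ℝ :=
    { toFun := fun n => (n : ℝ) ^ (-(1 + δ))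
      map_zero' := by
        simp only [Nat.cast_zero]
        exact Real.zero_rpow (by linarith)
      map_one' := by simp
      map_mul' := fun m n => by
        simp only [Nat.cast_mul]
        exact Real.mul_rpow (by positivity) (by positivity) }
  have hg : ∀ n, g n = (n : ℝ) ^ (-(1 + δ)) := fun n => rfl
  have hgs : Summable (g : ℕ → ℝ) := by
    have : (g : ℕ → ℝ) = fun n : ℕ => (n : ℝ) ^ (-(1 + δ)) := by
      ext n; exact hg n
    rw [this]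
    exact Real.summable_nat_rpow.mpr (by linarith)
  have hg0 : ∀ n, 0 ≤ g n := fun n => by rw [hg]; positivity
  have hsum1 : Summable (‖g ·‖) := by
    simpa [Real.norm_of_nonneg (hg0 _)] using hgs
  have h6 := EulerProduct.prod_filter_prime_geometric_eq_tsum_factoredNumbers (f := g.toMonoidHom)
    (by simpa using hgs) s
  have h7 : ∑' m : Nat.factoredNumbers s, g m ≤ ∑' n, g n :=
    Summable.tsum_subtype_le (fun n => g n) _ (fun n => hg0 n) hgs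
  have h8 : ∑' n, g n = ∑' (n : ℕ), 1 / (n : ℝ) ^ (1 + δ) := by
    congr 1
    ext n
    rw [hg, Real.rpow_neg (by positivity), one_div]
  have h9 : Real.exp (∑ p ∈ s with p.Prime, (p : ℝ) ^ (-(1 + δ))) ≤
      ∏ p ∈ s with p.Prime, (1 - g p)⁻¹ := by
    rw [Real.exp_sum]
    apply Finset.prod_le_prod
    · intro p _; positivity
    · intro p hp
      have hpp : p.Prime := (Finset.mem_filter.mp hp).2
      have hlt : g p < 1 := by
        rw [hg]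
        apply Real.rpow_lt_one_of_one_lt_of_neg
        · exact_mod_cast hpp.one_lt
        · linarith
      rw [← hg]
      rw [le_inv_comm₀ (Real.exp_pos _) (by linarith), ← Real.exp_neg]
      have := Real.add_one_le_exp (-(g p))
      linarith
  have h10 : Real.exp (∑ p ∈ s with p.Prime, (p : ℝ) ^ (-(1 + δ))) ≤ 2 / δ := by
    refine h9.trans ?_
    have h6' : ∏ p ∈ s with p.Prime, (1 - g p)⁻¹ = ∑' m : Nat.factoredNumbers s, g m := by
      simpa using h6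
    rw [h6']
    exact h7.trans (h8 ▸ h5.le)
  rw [Real.le_log_iff_exp_le (by positivity)]
  exact h10

/-- Abel summation bound. -/
lemma abel_identity (a : ℕ → ℂ) (w : ℕ → ℝ) (N : ℕ) :
    ∑ n ∈ Icc 1 N, a n * (w n : ℂ) =
      (∑ n ∈ Icc 1 N, a n) * (w (N + 1) : ℂ) +
        ∑ n ∈ Icc 1 N, (∑ k ∈ Icc 1 n, a k) * ((w n - w (n + 1) : ℝ) : ℂ) := by
  induction N with
  | zero => simp
  | succ N ih =>
    rw [Finset.sum_Icc_succ_top (by omega), ih, Finset.sum_Icc_succ_top (by omega),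
      Finset.sum_Icc_succ_top (f := fun n => (∑ k ∈ Icc 1 n, a k) * ((w n - w (n + 1) : ℝ) : ℂ))
        (by omega), Finset.sum_Icc_succ_top (f := a) (by omega)]
    push_cast
    ring

lemma weight_diff {σ : ℝ} (hσ : 0 < σ) {n : ℕ} (hn : 1 ≤ n) :
    0 ≤ (n : ℝ) ^ (-σ) - ((n + 1 : ℕ) : ℝ) ^ (-σ) ∧
    (n : ℝ) ^ (-σ) - ((n + 1 : ℕ) : ℝ) ^ (-σ) ≤ σ / n := by
  have hn' : (0 : ℝ) < n := by exact_mod_cast hn
  constructor
  · rw [sub_nonneg]
    apply Real.rpow_le_rpow_of_nonpos hn' (by push_cast; linarith) (by linarith)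
  · have h1 : ((n + 1 : ℕ) : ℝ) ^ (-σ) = (n : ℝ) ^ (-σ) * (1 + 1 / n) ^ (-σ) := by
      rw [← Real.mul_rpow hn'.le (by positivity)]
      congr 1
      push_cast
      field_simp
    have h2 : 1 - σ / n ≤ (1 + 1 / (n : ℝ)) ^ (-σ) := by
      rw [Real.rpow_def_of_pos (by positivity)]
      have h3 : Real.log (1 + 1 / (n : ℝ)) ≤ 1 / n := by
        have := Real.log_le_sub_one_of_pos (show (0 : ℝ) < 1 + 1 / n by positivity)
        linarith
      have h4 := Real.add_one_le_exp (Real.log (1 + 1 / (n : ℝ)) * -σ)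
      have h5 : Real.log (1 + 1 / (n : ℝ)) * σ ≤ σ / n := by
        calc Real.log (1 + 1 / (n : ℝ)) * σ ≤ 1 / n * σ := by gcongr
          _ = σ / n := by ring
      linarith
    have h6 : (n : ℝ) ^ (-σ) ≤ 1 := by
      apply Real.rpow_le_one_of_one_le_of_nonpos (by exact_mod_cast hn) (by linarith)
    have h7 : 0 ≤ (n : ℝ) ^ (-σ) := by positivity
    rw [h1]
    have h8 : 0 ≤ σ / n := by positivity
    nlinarith

lemma abel_bound {a : ℕ → ℂ} {B κ : ℝ} (hB : 0 ≤ B) (hκ : 0 < κ)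
    (hT : ∀ N : ℕ, 1 ≤ N → ‖∑ n ∈ Icc 1 N, a n‖ ≤ B * (N : ℝ) ^ (-κ)) {σ : ℝ} (hσ : 0 < σ)
    (hs : Summable (fun n : ℕ => a n * (((n : ℝ) ^ (-σ) : ℝ) : ℂ))) :
    ‖∑' n : ℕ, a n * (((n : ℝ) ^ (-σ) : ℝ) : ℂ)‖ ≤ σ * (B * ∑' n : ℕ, (n : ℝ) ^ (-(1 + κ))) := by
  set w : ℕ → ℝ := fun n => (n : ℝ) ^ (-σ) with hw
  have hκs : Summable (fun n : ℕ => (n : ℝ) ^ (-(1 + κ))) :=
    Real.summable_nat_rpow.mpr (by linarith)
  have h1 : Tendsto (fun N : ℕ => ∑ n ∈ Icc 1 N, a n * (w n : ℂ)) atTop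
      (𝓝 (∑' n : ℕ, a n * (w n : ℂ))) := by
    have h2 := hs.hasSum.tendsto_sum_nat
    have h3 := h2.comp (tendsto_add_atTop_nat 1)
    refine h3.congr fun N => ?_
    simp only [Function.comp]
    rw [Finset.range_eq_Ico, Finset.sum_eq_sum_Ico_succ_bot (by omega)]
    have h0 : a 0 * (((w 0 : ℝ)) : ℂ) = 0 := by
      simp [hw, Real.zero_rpow (by linarith : (-σ) ≠ 0)]
    rw [h0, zero_add]
    rfl
  have h4 : ∀ N : ℕ, 1 ≤ N → ‖∑ n ∈ Icc 1 N, a n * (w n : ℂ)‖ ≤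
      B * (N : ℝ) ^ (-κ) + σ * (B * ∑' n : ℕ, (n : ℝ) ^ (-(1 + κ))) := by
    intro N hN
    rw [abel_identity]
    refine (norm_add_le _ _).trans (add_le_add ?_ ?_)
    · rw [norm_mul]
      have h5 : ‖((w (N + 1) : ℝ) : ℂ)‖ ≤ 1 := by
        rw [Complex.norm_real, Real.norm_of_nonneg (by positivity)]
        apply Real.rpow_le_one_of_one_le_of_nonpos
        · push_cast; linarith [(Nat.cast_nonneg N : (0 : ℝ) ≤ N)]
        · linarith
      calc ‖∑ n ∈ Icc 1 N, a n‖ * ‖((w (N + 1) : ℝ) : ℂ)‖ ≤ (B * (N : ℝ) ^ (-κ)) * 1 := by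
            gcongr
            exact hT N hN
        _ = B * (N : ℝ) ^ (-κ) := mul_one _
    · refine (norm_sum_le _ _).trans ?_
      have h6 : ∀ n ∈ Icc 1 N, ‖(∑ k ∈ Icc 1 n, a k) * ((w n - w (n + 1) : ℝ) : ℂ)‖ ≤
          σ * (B * (n : ℝ) ^ (-(1 + κ))) := by
        intro n hn
        have hn1 : 1 ≤ n := (Finset.mem_Icc.mp hn).1
        have hn' : (0 : ℝ) < n := by exact_mod_cast hn1
        obtain ⟨h7, h8⟩ := weight_diff hσ hn1
        rw [norm_mul, Complex.norm_real, Real.norm_of_nonneg h7]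
        calc ‖∑ k ∈ Icc 1 n, a k‖ * (w n - w (n + 1)) ≤ (B * (n : ℝ) ^ (-κ)) * (σ / n) := by
              apply mul_le_mul (hT n hn1) h8 h7 (by positivity)
          _ = σ * (B * (n : ℝ) ^ (-(1 + κ))) := by
              have : (n : ℝ) ^ (-(1 + κ)) = (n : ℝ) ^ (-κ) * (n : ℝ)⁻¹ := by
                rw [neg_add, add_comm, Real.rpow_add hn', Real.rpow_neg_one]
              rw [this]
              ring
      refine (Finset.sum_le_sum h6).trans ?_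
      rw [← Finset.mul_sum, ← Finset.mul_sum]
      gcongr
      exact hκs.sum_le_tsum _ (fun n _ => by positivity)
  have h9 : Tendsto (fun N : ℕ => B * (N : ℝ) ^ (-κ) + σ * (B * ∑' n : ℕ, (n : ℝ) ^ (-(1 + κ)))) atTop
      (𝓝 (B * 0 + σ * (B * ∑' n : ℕ, (n : ℝ) ^ (-(1 + κ))))) := by
    apply Tendsto.add_const
    apply Tendsto.const_mul
    exact (tendsto_rpow_neg_atTop hκ).comp tendsto_natCast_atTop_atTop
  have h10 := le_of_tendsto_of_tendsto h1.norm h9 (eventually_atTop.mpr ⟨1, h4⟩)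
  simpa using h10

/-- A nonnegative multiplicative function whose prime power values are summable is summable. -/
lemma summable_of_primes {g : ℕ → ℝ} (hg0 : ∀ n, 0 ≤ g n) (hg1 : g 1 = 1) (hz : g 0 = 0)
    (hmul : ∀ {m n : ℕ}, Nat.Coprime m n → g (m * n) = g m * g n) (b : ℕ → ℝ)
    (hs : ∀ {p : ℕ}, p.Prime → Summable (fun k : ℕ => ‖g (p ^ k)‖))
    (hb : ∀ p : ℕ, p.Prime → ∑' k : ℕ, g (p ^ (k + 1)) ≤ b p) (M : ℝ)
    (hM : ∀ N : ℕ, ∑ p ∈ Nat.primesBelow N, b p ≤ M) : Summable g := by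
  refine summable_of_sum_range_le (c := Real.exp M) hg0 fun N => ?_
  obtain ⟨h1, h2⟩ := EulerProduct.summable_and_hasSum_smoothNumbers_prod_primesBelow_tsum
    (f := g) hg1 hmul hs N
  have h3 : ∑ n ∈ range N, g n ≤ ∑' m : Nat.smoothNumbers N, g m := by
    have h4 : ∑ n ∈ range N, g n = ∑ n ∈ Ico 1 N, g n := by
      rcases Nat.eq_zero_or_pos N with h | h
      · subst h; simp
      · rw [Finset.range_eq_Ico, Finset.sum_eq_sum_Ico_succ_bot h, hz, zero_add]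
    rw [h4]
    rw [tsum_subtype (Nat.smoothNumbers N) g]
    have h5 : Summable ((Nat.smoothNumbers N).indicator g) := by
      rw [← summable_subtype_iff_indicator]
      have : (fun m : Nat.smoothNumbers N => ‖g m‖) = g ∘ Subtype.val := by
        ext m
        simp [Real.norm_of_nonneg (hg0 _)]
      rw [← this]
      exact h1
    have h6 : ∑ n ∈ Ico 1 N, g n = ∑ n ∈ Ico 1 N, (Nat.smoothNumbers N).indicator g n := by
      apply Finset.sum_congr rfl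
      intro n hn
      rw [Finset.mem_Ico] at hn
      rw [Set.indicator_of_mem (Nat.mem_smoothNumbers_of_lt (by omega) hn.2)]
    rw [h6]
    exact h5.sum_le_tsum _ (fun n _ => Set.indicator_nonneg (fun n _ => hg0 n) n)
  refine h3.trans ?_
  rw [h2.tsum_eq]
  calc ∏ p ∈ Nat.primesBelow N, ∑' n : ℕ, g (p ^ n)
      ≤ ∏ p ∈ Nat.primesBelow N, Real.exp (b p) := by
        apply Finset.prod_le_prod
        · intro p _
          exact tsum_nonneg (fun n => hg0 _)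
        · intro p hp
          have hpp := Nat.prime_of_mem_primesBelow hp
          have h7 : Summable (fun k : ℕ => g (p ^ k)) := by
            have := hs hpp
            simpa [Real.norm_of_nonneg (hg0 _)] using this
          rw [h7.tsum_eq_zero_add]
          have := hb p hpp
          simp only [pow_zero, hg1]
          linarith [Real.add_one_le_exp (b p)]
    _ = Real.exp (∑ p ∈ Nat.primesBelow N, b p) := by rw [Real.exp_sum]
    _ ≤ Real.exp M := Real.exp_le_exp.mpr (hM N)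

/-- the twisted function `n ↦ f n * n^(-σ)` -/
noncomputable def tw (f : ℕ → ℂ) (σ : ℝ) (n : ℕ) : ℂ := f n * (((n : ℝ) ^ (-σ) : ℝ) : ℂ)

/-- bound for the contribution of the powers of `p` other than the `K`-th -/
noncomputable def bp (f : ℕ → ℂ) (K : ℕ) (A σ : ℝ) (p : ℕ) : ℝ :=
  ∑ j ∈ Ico 1 K, ‖f (p ^ j)‖ * (p : ℝ) ^ (-(j * σ)) +
    A / (1 - (2 : ℝ) ^ (-(1 / (K : ℝ)))) * (p : ℝ) ^ (-(1 + 1 / (K : ℝ)))

lemma norm_tw (f : ℕ → ℂ) (σ : ℝ) (n : ℕ) : ‖tw f σ n‖ = ‖f n‖ * (n : ℝ) ^ (-σ) := by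
  rw [tw, norm_mul, Complex.norm_real, Real.norm_of_nonneg (by positivity)]

lemma norm_tw_le (f : ℕ → ℂ) {σ : ℝ} (hσ : 0 ≤ σ) {n : ℕ} (hn : 1 ≤ n) :
    ‖tw f σ n‖ ≤ ‖f n‖ := by
  rw [norm_tw]
  have : (n : ℝ) ^ (-σ) ≤ 1 :=
    Real.rpow_le_one_of_one_le_of_nonpos (by exact_mod_cast hn) (by linarith)
  have h0 := norm_nonneg (f n)
  nlinarith

lemma two_rpow_lt_one {K : ℕ} (hK : 1 ≤ K) : (2 : ℝ) ^ (-(1 / (K : ℝ))) < 1 := by
  apply Real.rpow_lt_one_of_one_lt_of_neg (by norm_num)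
  have : (0 : ℝ) < K := by exact_mod_cast hK
  have : 0 < 1 / (K : ℝ) := by positivity
  linarith

lemma pp_bound {f : ℕ → ℂ} {K : ℕ} (hK : 1 ≤ K) {A : ℝ} (hA0 : 0 ≤ A)
    (hA : ∀ n : ℕ, 1 ≤ n → ‖f n‖ ≤ A * (n : ℝ) ^ (-(1 / (K : ℝ)))) {p : ℕ} (hp : p.Prime) :
    Summable (fun k : ℕ => ‖f (p ^ k)‖) ∧ ∀ σ : ℝ, 0 ≤ σ →
    Summable (fun k : ℕ => ‖tw f σ (p ^ k)‖) ∧
    ∑' k : ℕ, ‖tw f σ (p ^ (k + 1))‖ ≤ bp f K A σ p + ‖f (p ^ K)‖ * (p : ℝ) ^ (-(K * σ)) := by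
  have hK' : (0 : ℝ) < K := by exact_mod_cast hK
  set κ : ℝ := 1 / (K : ℝ) with hκ
  have hκ0 : 0 < κ := by positivity
  have hp0 : (0 : ℝ) < p := by exact_mod_cast hp.pos
  have hp2 : (2 : ℝ) ≤ p := by exact_mod_cast hp.two_le
  set r : ℝ := (p : ℝ) ^ (-κ) with hr
  have hr0 : 0 < r := by positivity
  have hr2 : r ≤ (2 : ℝ) ^ (-κ) := Real.rpow_le_rpow_of_nonpos (by norm_num) hp2 (by linarith)
  have h21 : (2 : ℝ) ^ (-κ) < 1 := two_rpow_lt_one hK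
  have hr1 : r < 1 := lt_of_le_of_lt hr2 h21
  have hpow : ∀ k : ℕ, (((p ^ k : ℕ)) : ℝ) ^ (-κ) = r ^ k := by
    intro k
    rw [hr, ← Real.rpow_natCast, ← Real.rpow_mul hp0.le]
    push_cast
    rw [← Real.rpow_natCast, ← Real.rpow_mul hp0.le, mul_comm]
  have hb : ∀ k : ℕ, ‖f (p ^ k)‖ ≤ A * r ^ k := by
    intro k
    rw [← hpow k]
    exact hA _ (Nat.one_le_pow _ _ hp.pos)
  have hgeo : Summable (fun k : ℕ => A * r ^ k) :=
    (summable_geometric_of_lt_one hr0.le hr1).mul_left A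
  refine ⟨Summable.of_nonneg_of_le (fun k => norm_nonneg _) hb hgeo, fun σ hσ => ?_⟩
  have hs1 : Summable (fun k : ℕ => ‖tw f σ (p ^ k)‖) :=
    Summable.of_nonneg_of_le (fun k => norm_nonneg _)
      (fun k => (norm_tw_le f hσ (Nat.one_le_pow _ _ hp.pos)).trans (hb k)) hgeo
  refine ⟨hs1, ?_⟩
  have hs2 : Summable (fun k : ℕ => ‖tw f σ (p ^ (k + 1))‖) :=
    (summable_nat_add_iff 1).mpr hs1
  rw [← hs2.sum_add_tsum_nat_add K]
  have h1 : ∑ k ∈ range K, ‖tw f σ (p ^ (k + 1))‖ ≤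
      ∑ j ∈ Ico 1 K, ‖f (p ^ j)‖ * (p : ℝ) ^ (-(j * σ)) +
        ‖f (p ^ K)‖ * (p : ℝ) ^ (-(K * σ)) := by
    have hpt : ∀ k : ℕ, ‖tw f σ (p ^ k)‖ = ‖f (p ^ k)‖ * (p : ℝ) ^ (-(k * σ)) := by
      intro k
      rw [norm_tw]
      congr 1
      push_cast
      rw [← Real.rpow_natCast, ← Real.rpow_mul hp0.le]
      congr 1
      ring
    obtain ⟨L, rfl⟩ : ∃ L, K = L + 1 := ⟨K - 1, by omega⟩
    rw [Finset.sum_range_succ]
    apply add_le_add
    · rw [Finset.sum_Ico_eq_sum_range]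
      simp only [Nat.add_sub_cancel]
      apply Finset.sum_le_sum
      intro k _
      rw [add_comm 1 k, hpt]
    · rw [hpt]
  have h2 : ∑' k : ℕ, ‖tw f σ (p ^ (k + K + 1))‖ ≤
      A / (1 - (2 : ℝ) ^ (-κ)) * (p : ℝ) ^ (-(1 + κ)) := by
    have h3 : ∑' k : ℕ, ‖tw f σ (p ^ (k + K + 1))‖ ≤ ∑' k : ℕ, A * r ^ (K + 1) * r ^ k := by
      apply Summable.tsum_le_tsum
      · intro k
        calc ‖tw f σ (p ^ (k + K + 1))‖ ≤ A * r ^ (k + K + 1) :=
              (norm_tw_le f hσ (Nat.one_le_pow _ _ hp.pos)).trans (hb _)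
          _ = A * r ^ (K + 1) * r ^ k := by ring
      · exact (summable_nat_add_iff K).mpr hs2
      · exact (summable_geometric_of_lt_one hr0.le hr1).mul_left _
    rw [tsum_mul_left, tsum_geometric_of_lt_one hr0.le hr1] at h3
    have h4 : r ^ (K + 1) = (p : ℝ) ^ (-(1 + κ)) := by
      rw [hr, ← Real.rpow_natCast, ← Real.rpow_mul hp0.le]
      congr 1
      push_cast
      rw [hκ]
      field_simp
    rw [h4] at h3
    refine h3.trans ?_
    have h5 : (1 - r)⁻¹ ≤ (1 - (2 : ℝ) ^ (-κ))⁻¹ := by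
      apply inv_anti₀ (by linarith) (by linarith)
    calc A * (p : ℝ) ^ (-(1 + κ)) * (1 - r)⁻¹ ≤ A * (p : ℝ) ^ (-(1 + κ)) * (1 - (2 : ℝ) ^ (-κ))⁻¹ := by
          gcongr
      _ = A / (1 - (2 : ℝ) ^ (-κ)) * (p : ℝ) ^ (-(1 + κ)) := by ring
  unfold bp
  linarith


/-- The key quantitative argument: an averaged smallness condition on the values at the `j`-th powers
of primes, `j < K`, forces partial sums of size at least a constant times `x^(-1/K)`. -/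
lemma key {f : ℕ → ℂ} (hf : IsMO f) {K : ℕ} (hK : 1 ≤ K) {L C₀ : ℝ} (hL : 0 ≤ L)
    (hsum : ∀ σ : ℝ, 0 < σ → σ < 1 → ∀ s : Finset ℕ, (∀ p ∈ s, p.Prime) →
      ∑ p ∈ s, ∑ j ∈ Ico 1 K, ‖f (p ^ j)‖ * (p : ℝ) ^ (-(j * σ)) ≤ L * Real.log (1 / σ) + C₀)
    {c : ℝ} (hc : 2 * c + L < 1) {N₀ : ℕ}
    (hN₀ : ∀ N : ℕ, N₀ ≤ N → ‖∑ n ∈ Icc 1 N, f n‖ ≤ c * (N : ℝ) ^ (-(1 / (K : ℝ)))) : False := by
  have hf1 : f 1 = 1 := hf.map_one
  have hmul := hf.map_mul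
  have heuler := hf.euler_factor
  have hK' : (0 : ℝ) < K := by exact_mod_cast hK
  set κ : ℝ := 1 / (K : ℝ) with hκ
  have hκ0 : 0 < κ := by positivity
  have h21 : (2 : ℝ) ^ (-κ) < 1 := two_rpow_lt_one hK
  -- c is nonnegative
  have hc0 : 0 ≤ c := by
    by_contra hneg
    push Not at hneg
    have h := hN₀ (N₀ + 1) (by omega)
    have h2 : c * ((N₀ + 1 : ℕ) : ℝ) ^ (-κ) < 0 :=
      mul_neg_of_neg_of_pos hneg (by positivity)
    linarith [norm_nonneg (∑ n ∈ Icc 1 (N₀ + 1), f n)]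
  -- global bound for the partial sums
  obtain ⟨B, hB0, hB⟩ : ∃ B : ℝ, 0 ≤ B ∧ ∀ N : ℕ, 1 ≤ N →
      ‖∑ n ∈ Icc 1 N, f n‖ ≤ B * (N : ℝ) ^ (-κ) := by
    refine ⟨c + ∑ N ∈ range N₀, ‖∑ n ∈ Icc 1 N, f n‖ * (N : ℝ) ^ κ, by positivity, ?_⟩
    intro N hN
    have hN' : (0 : ℝ) < N := by exact_mod_cast hN
    rcases le_or_gt N₀ N with h | h
    · refine (hN₀ N h).trans ?_
      gcongr
      have : 0 ≤ ∑ N ∈ range N₀, ‖∑ n ∈ Icc 1 N, f n‖ * (N : ℝ) ^ κ := by positivity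
      linarith
    · have h1 : ‖∑ n ∈ Icc 1 N, f n‖ * (N : ℝ) ^ κ ≤
          ∑ N ∈ range N₀, ‖∑ n ∈ Icc 1 N, f n‖ * (N : ℝ) ^ κ :=
        Finset.single_le_sum (f := fun N : ℕ => ‖∑ n ∈ Icc 1 N, f n‖ * (N : ℝ) ^ κ)
          (fun N _ => by positivity) (Finset.mem_range.mpr h)
      have h2 : ‖∑ n ∈ Icc 1 N, f n‖ = ‖∑ n ∈ Icc 1 N, f n‖ * (N : ℝ) ^ κ * (N : ℝ) ^ (-κ) := by
        rw [mul_assoc, ← Real.rpow_add hN']
        simp
      rw [h2]
      gcongr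
      linarith
  -- global bound for the coefficients
  obtain ⟨A, hA0, hA⟩ : ∃ A : ℝ, 0 ≤ A ∧ ∀ n : ℕ, 1 ≤ n → ‖f n‖ ≤ A * (n : ℝ) ^ (-κ) := by
    refine ⟨B * (1 + 2 ^ κ), by positivity, ?_⟩
    intro n hn
    rcases Nat.lt_or_ge 1 n with h | h
    · obtain ⟨m, rfl⟩ : ∃ m, n = m + 1 := ⟨n - 1, by omega⟩
      have hm : 1 ≤ m := by omega
      have hm' : (0 : ℝ) < m := by exact_mod_cast hm
      have h1 : f (m + 1) = ∑ n ∈ Icc 1 (m + 1), f n - ∑ n ∈ Icc 1 m, f n := by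
        rw [Finset.sum_Icc_succ_top (by omega)]; ring
      rw [h1]
      refine (norm_sub_le _ _).trans ?_
      have h2 := hB (m + 1) (by omega)
      have h3 := hB m hm
      have h4 : (m : ℝ) ^ (-κ) ≤ 2 ^ κ * ((m + 1 : ℕ) : ℝ) ^ (-κ) := by
        have h5 : (2 : ℝ) ^ κ * ((m + 1 : ℕ) : ℝ) ^ (-κ) = (((m + 1 : ℕ) : ℝ) / 2) ^ (-κ) := by
          rw [Real.div_rpow (by positivity) (by norm_num), Real.rpow_neg (by norm_num : (0 : ℝ) ≤ 2)]
          field_simp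
        rw [h5]
        apply Real.rpow_le_rpow_of_nonpos (by positivity) _ (by linarith)
        push_cast
        have : (1 : ℝ) ≤ m := by exact_mod_cast hm
        linarith
      nlinarith
    · have : n = 1 := by omega
      subst this
      have h1 := hB 1 le_rfl
      simp only [Finset.Icc_self, Finset.sum_singleton, Nat.cast_one, Real.one_rpow, mul_one] at h1 ⊢
      have : (0 : ℝ) < 2 ^ κ := by positivity
      nlinarith
  -- sharper bound for large n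
  obtain ⟨c₁, hc₁0, hc₁1, n₁, hn₁⟩ : ∃ c₁ : ℝ, 0 < c₁ ∧ c₁ + L < 1 ∧ ∃ n₁ : ℕ, ∀ n : ℕ, n₁ ≤ n →
      ‖f n‖ ≤ c₁ * (n : ℝ) ^ (-κ) := by
    refine ⟨(2 * c + 1 - L) / 2, by linarith, by linarith, ?_⟩
    have h1 : Tendsto (fun m : ℕ => c * (1 + ((m : ℝ) / ((m + 1 : ℕ) : ℝ)) ^ (-κ))) atTop
        (𝓝 (c * (1 + (1 : ℝ) ^ (-κ)))) := by
      apply Tendsto.const_mul
      apply Tendsto.const_add
      have h2 : Tendsto (fun m : ℕ => (m : ℝ) / ((m + 1 : ℕ) : ℝ)) atTop (𝓝 1) := by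
        push_cast
        exact tendsto_natCast_div_add_atTop 1
      exact (Real.continuousAt_rpow_const 1 (-κ) (Or.inl one_ne_zero)).tendsto.comp h2
    have h3 : c * (1 + (1 : ℝ) ^ (-κ)) < (2 * c + 1 - L) / 2 := by
      rw [Real.one_rpow]; linarith
    have h4 := h1.eventually_lt_const h3
    obtain ⟨m₁, hm₁⟩ := eventually_atTop.mp h4
    refine ⟨max m₁ (max N₀ 1) + 1, fun n hn => ?_⟩
    obtain ⟨m, rfl⟩ : ∃ m, n = m + 1 := ⟨n - 1, by omega⟩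
    have hm1 : m₁ ≤ m := by
      have := le_max_left m₁ (max N₀ 1); omega
    have hmN : N₀ ≤ m := by
      have := le_max_right m₁ (max N₀ 1)
      have := le_max_left N₀ 1
      omega
    have hm : 1 ≤ m := by
      have := le_max_right m₁ (max N₀ 1)
      have := le_max_right N₀ 1
      omega
    have hm' : (0 : ℝ) < m := by exact_mod_cast hm
    have h5 : f (m + 1) = ∑ n ∈ Icc 1 (m + 1), f n - ∑ n ∈ Icc 1 m, f n := by
      rw [Finset.sum_Icc_succ_top (by omega)]; ring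
    rw [h5]
    refine (norm_sub_le _ _).trans ?_
    have h6 := hN₀ (m + 1) (by omega)
    have h7 := hN₀ m hmN
    have h8 := hm₁ m hm1
    have h9 : (m : ℝ) ^ (-κ) = ((m : ℝ) / ((m + 1 : ℕ) : ℝ)) ^ (-κ) * ((m + 1 : ℕ) : ℝ) ^ (-κ) := by
      rw [← Real.mul_rpow (by positivity) (by positivity)]
      congr 1
      field_simp
    calc ‖∑ n ∈ Icc 1 (m + 1), f n‖ + ‖∑ n ∈ Icc 1 m, f n‖
        ≤ c * ((m + 1 : ℕ) : ℝ) ^ (-κ) + c * (m : ℝ) ^ (-κ) := add_le_add h6 h7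
      _ = (c * (1 + ((m : ℝ) / ((m + 1 : ℕ) : ℝ)) ^ (-κ))) * ((m + 1 : ℕ) : ℝ) ^ (-κ) := by
          rw [h9]; ring
      _ ≤ (2 * c + 1 - L) / 2 * ((m + 1 : ℕ) : ℝ) ^ (-κ) := by
          gcongr
  -- bound for prime powers
  have hjpow : ∀ p : ℕ, 0 < p → ∀ j : ℕ, (((p ^ j : ℕ)) : ℝ) ^ (-κ) = (p : ℝ) ^ (-(j * κ)) := by
    intro p hp j
    have hp0 : (0 : ℝ) < p := by exact_mod_cast hp
    push_cast
    rw [← Real.rpow_natCast, ← Real.rpow_mul hp0.le]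
    congr 1
    ring
  have hKpow : ∀ p : ℕ, 0 < p → (((p ^ K : ℕ)) : ℝ) ^ (-κ) = (p : ℝ)⁻¹ := by
    intro p hp
    rw [hjpow p hp K, hκ, mul_one_div_cancel hK'.ne', Real.rpow_neg_one]
  have hfK : ∀ p : ℕ, 0 < p → ‖f (p ^ K)‖ ≤ A * (p : ℝ)⁻¹ := by
    intro p hp
    rw [← hKpow p hp]
    exact hA _ (Nat.one_le_pow _ _ hp)
  have hfK' : ∀ p : ℕ, 0 < p → n₁ ≤ p → ‖f (p ^ K)‖ ≤ c₁ * (p : ℝ)⁻¹ := by
    intro p hp hpn
    rw [← hKpow p hp]
    exact hn₁ _ (hpn.trans (Nat.le_self_pow (by omega) p))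
  -- positivity of b
  set A' : ℝ := A / (1 - (2 : ℝ) ^ (-κ)) with hA'
  have hA'0 : 0 ≤ A' := by
    have : 0 < 1 - (2 : ℝ) ^ (-κ) := by linarith
    positivity
  have hb0 : ∀ (σ : ℝ) (p : ℕ), 0 ≤ bp f K A σ p := by
    intro σ p
    unfold bp
    positivity
  set Z : ℝ := ∑' n : ℕ, (n : ℝ) ^ (-(1 + κ)) with hZ
  have hZs : Summable (fun n : ℕ => (n : ℝ) ^ (-(1 + κ))) :=
    Real.summable_nat_rpow.mpr (by linarith)
  have hMbs : ∀ σ : ℝ, 0 < σ → σ < 1 → ∀ s : Finset ℕ, (∀ p ∈ s, p.Prime) →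
      ∑ p ∈ s, bp f K A σ p ≤ L * Real.log (1 / σ) + C₀ + A' * Z := by
    intro σ hσ hσ1 s hs
    unfold bp
    rw [Finset.sum_add_distrib, ← Finset.mul_sum]
    apply add_le_add (hsum σ hσ hσ1 s hs)
    gcongr
    exact hZs.sum_le_tsum _ (fun n _ => by positivity)
  -- the small constant
  obtain ⟨ε, hε0, hε1, hε2⟩ : ∃ ε : ℝ, 0 < ε ∧ ε ≤ 1 / 2 ∧ (1 + ε) * (L + c₁) < 1 := by
    refine ⟨(1 - (L + c₁)) / 2, by linarith, by linarith, ?_⟩
    nlinarith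
  set θ : ℝ := (1 + ε) * (L + c₁) with hθ
  -- a bound for v which is uniform in sigma
  have hVlim : Tendsto (fun p : ℕ => ∑ j ∈ Ico 1 K, A * (p : ℝ) ^ (-(j * κ)) +
      A' * (p : ℝ) ^ (-(1 + κ)) + c₁ * (p : ℝ)⁻¹) atTop (𝓝 0) := by
    have h1 : ∀ a : ℝ, 0 < a → ∀ D : ℝ, Tendsto (fun p : ℕ => D * (p : ℝ) ^ (-a)) atTop (𝓝 0) := by
      intro a ha D
      have := ((tendsto_rpow_neg_atTop ha).comp tendsto_natCast_atTop_atTop).const_mul D
      simpa [Function.comp_def] using this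
    have h2 : Tendsto (fun p : ℕ => ∑ j ∈ Ico 1 K, A * (p : ℝ) ^ (-(j * κ))) atTop
        (𝓝 (∑ j ∈ Ico 1 K, 0)) := by
      apply tendsto_finsetSum
      intro j hj
      rw [Finset.mem_Ico] at hj
      have : (0 : ℝ) < j := by exact_mod_cast hj.1
      exact h1 _ (by positivity) A
    have h3 := h1 (1 + κ) (by linarith) A'
    have h4 : Tendsto (fun p : ℕ => c₁ * (p : ℝ)⁻¹) atTop (𝓝 (c₁ * 0)) :=
      (tendsto_inv_atTop_nhds_zero_nat).const_mul c₁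
    simpa using (h2.add h3).add h4
  obtain ⟨P₀, hP₀⟩ := eventually_atTop.mp
    ((hVlim.eventually_lt_const hε0).and (eventually_ge_atTop n₁))
  have hV : ∀ p : ℕ, p.Prime → P₀ ≤ p → ∀ σ : ℝ, 0 < σ →
      bp f K A σ p + c₁ * (p : ℝ) ^ (-(1 + K * σ)) ≤ ε := by
    intro p hp hpP σ hσ
    have hp0 : (0 : ℝ) < p := by exact_mod_cast hp.pos
    have hp1 : (1 : ℝ) ≤ p := by exact_mod_cast hp.one_le
    refine le_trans ?_ (hP₀ p hpP).1.le
    unfold bp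
    apply add_le_add
    · apply add_le_add _ le_rfl
      apply Finset.sum_le_sum
      intro j hj
      have h1 : ‖f (p ^ j)‖ ≤ A * (p : ℝ) ^ (-(j * κ)) := by
        rw [← hjpow p hp.pos j]
        exact hA _ (Nat.one_le_pow _ _ hp.pos)
      have h2 : (p : ℝ) ^ (-(j * σ)) ≤ 1 := by
        apply Real.rpow_le_one_of_one_le_of_nonpos hp1
        have : (0 : ℝ) ≤ j := by positivity
        nlinarith [mul_nonneg this hσ.le]
      calc ‖f (p ^ j)‖ * (p : ℝ) ^ (-(j * σ)) ≤ ‖f (p ^ j)‖ * 1 := by gcongr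
        _ = ‖f (p ^ j)‖ := mul_one _
        _ ≤ _ := h1
    · have : (p : ℝ) ^ (-(1 + K * σ)) ≤ (p : ℝ)⁻¹ := by
        rw [← Real.rpow_neg_one]
        apply Real.rpow_le_rpow_of_exponent_le hp1
        nlinarith [mul_pos hK' hσ]
      gcongr
  -- basic facts about the twist
  have htw0 : ∀ σ : ℝ, 0 < σ → tw f σ 0 = 0 := by
    intro σ hσ
    simp [tw, Real.zero_rpow (by linarith : (-σ) ≠ 0)]
  have htw1 : ∀ σ : ℝ, tw f σ 1 = 1 := by
    intro σ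
    simp [tw, hf1]
  have htwmul : ∀ σ : ℝ, 0 < σ → ∀ {m n : ℕ}, Nat.Coprime m n →
      tw f σ (m * n) = tw f σ m * tw f σ n := by
    intro σ hσ m n hmn
    rcases Nat.eq_zero_or_pos m with h | hm
    · subst h
      have : n = 1 := by simpa using hmn
      subst this
      rw [zero_mul, htw0 σ hσ, zero_mul]
    · rcases Nat.eq_zero_or_pos n with h | hn
      · subst h
        rw [mul_zero, htw0 σ hσ, mul_zero]
      · rw [tw, tw, tw, hmul m n hm hn hmn]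
        push_cast
        rw [Real.mul_rpow (by positivity) (by positivity)]
        push_cast
        ring
  -- bound at primes
  have hpq : ∀ p : ℕ, 0 < p → ∀ σ : ℝ, (p : ℝ)⁻¹ * (p : ℝ) ^ (-(K * σ)) = (p : ℝ) ^ (-(1 + K * σ)) := by
    intro p hp σ
    have hp0 : (0 : ℝ) < p := by exact_mod_cast hp
    rw [neg_add, Real.rpow_add hp0, Real.rpow_neg_one]
  -- summability of the twist
  have hsumm : ∀ σ : ℝ, 0 < σ → σ < 1 → Summable (fun n => ‖tw f σ n‖) := by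
    intro σ hσ hσ1
    have hZσ : Summable (fun n : ℕ => (n : ℝ) ^ (-(1 + K * σ))) :=
      Real.summable_nat_rpow.mpr (by nlinarith [mul_pos hK' hσ])
    refine summable_of_primes (fun n => norm_nonneg _) (by rw [htw1]; simp)
      (by rw [htw0 σ hσ]; simp) (fun {m n} h => by rw [htwmul σ hσ h, norm_mul])
      (fun p => bp f K A σ p + A * (p : ℝ) ^ (-(1 + K * σ))) (fun {p} hp => ?_) (fun p hp => ?_)
      (L * Real.log (1 / σ) + C₀ + A' * Z + A * ∑' n : ℕ, (n : ℝ) ^ (-(1 + K * σ))) (fun N => ?_)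
    · have := ((pp_bound hK hA0 hA hp).2 σ hσ.le).1
      simpa using this
    · refine ((pp_bound hK hA0 hA hp).2 σ hσ.le).2.trans ?_
      have h1 := hfK p hp.pos
      have h2 : 0 ≤ (p : ℝ) ^ (-(K * σ)) := by positivity
      have h3 := mul_le_mul_of_nonneg_right h1 h2
      rw [mul_assoc, hpq p hp.pos σ] at h3
      linarith
    · rw [Finset.sum_add_distrib, ← Finset.mul_sum]
      apply add_le_add (hMbs σ hσ hσ1 _ (fun p hp => Nat.prime_of_mem_primesBelow hp))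
      gcongr
      exact hZσ.sum_le_tsum _ (fun n _ => by positivity)
  -- Euler factors
  have hEsplit : ∀ p : ℕ, p.Prime → ∀ σ : ℝ, 0 < σ →
      1 - (bp f K A σ p + ‖f (p ^ K)‖ * (p : ℝ) ^ (-(K * σ))) ≤ ‖∑' k : ℕ, tw f σ (p ^ k)‖ := by
    intro p hp σ hσ
    obtain ⟨h1, h2⟩ := (pp_bound hK hA0 hA hp).2 σ hσ.le
    have h3 : Summable (fun k : ℕ => tw f σ (p ^ k)) := h1.of_norm
    rw [h3.tsum_eq_zero_add, pow_zero, htw1]
    have h4 : ‖∑' k : ℕ, tw f σ (p ^ (k + 1))‖ ≤ ∑' k : ℕ, ‖tw f σ (p ^ (k + 1))‖ :=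
      norm_tsum_le_tsum_norm ((summable_nat_add_iff 1).mpr h1)
    have h5 : ‖(1 : ℂ)‖ - ‖∑' k : ℕ, tw f σ (p ^ (k + 1))‖ ≤ ‖1 + ∑' k : ℕ, tw f σ (p ^ (k + 1))‖ := by
      have := norm_sub_norm_le (1 : ℂ) (-(∑' k : ℕ, tw f σ (p ^ (k + 1))))
      rw [norm_neg, sub_neg_eq_add] at this
      exact this
    rw [norm_one] at h5
    linarith
  have hexp : ∀ v : ℝ, 0 ≤ v → v ≤ 1 / 2 → Real.exp (-(v + v ^ 2)) ≤ 1 - v := by
    intro v hv0 hv1
    rw [Real.exp_neg, inv_le_comm₀ (Real.exp_pos _) (by linarith)]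
    refine le_trans ?_ (Real.quadratic_le_exp_of_nonneg (by positivity))
    rw [inv_le_iff_one_le_mul₀ (by linarith)]
    have h1 : 0 ≤ v ^ 2 * ((1 - v) * (1 + v) ^ 2 / 2 - v) := by
      apply mul_nonneg (by positivity)
      nlinarith [mul_nonneg hv0 (sub_nonneg.mpr hv1), mul_nonneg (mul_nonneg hv0 hv0) (sub_nonneg.mpr hv1)]
    nlinarith
  have hElow : ∀ p : ℕ, p.Prime → P₀ ≤ p → ∀ σ : ℝ, 0 < σ →
      Real.exp (-((1 + ε) * (bp f K A σ p + c₁ * (p : ℝ) ^ (-(1 + K * σ))))) ≤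
        ‖∑' k : ℕ, tw f σ (p ^ k)‖ := by
    intro p hp hpP σ hσ
    have hp0 : (0 : ℝ) < p := by exact_mod_cast hp.pos
    have h1 := hV p hp hpP σ hσ
    have h2 := (hP₀ p hpP).2
    have h3 := hEsplit p hp σ hσ
    have h4 : ‖f (p ^ K)‖ * (p : ℝ) ^ (-(K * σ)) ≤ c₁ * (p : ℝ) ^ (-(1 + K * σ)) := by
      have h5 := mul_le_mul_of_nonneg_right (hfK' p hp.pos h2)
        (show 0 ≤ (p : ℝ) ^ (-(K * σ)) by positivity)
      rwa [mul_assoc, hpq p hp.pos σ] at h5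
    set v := bp f K A σ p + c₁ * (p : ℝ) ^ (-(1 + K * σ)) with hv
    have hv0 : 0 ≤ v := by
      have := hb0 σ p
      positivity
    calc Real.exp (-((1 + ε) * v)) ≤ Real.exp (-(v + v ^ 2)) := by
          apply Real.exp_le_exp.mpr
          nlinarith
      _ ≤ 1 - v := hexp v hv0 (by linarith)
      _ ≤ 1 - (bp f K A σ p + ‖f (p ^ K)‖ * (p : ℝ) ^ (-(K * σ))) := by linarith
      _ ≤ _ := h3
  -- prime sums
  obtain ⟨δ₀, hδ₀, hδ⟩ := prime_sum_bound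
  -- lower bound for the whole sum
  have hlow : ∀ σ : ℝ, 0 < σ → σ < 1 → K * σ < δ₀ → ∀ m₀ : ℝ, 0 ≤ m₀ →
      m₀ ≤ ∏ p ∈ Nat.primesBelow P₀, ‖∑' k : ℕ, tw f σ (p ^ k)‖ →
      m₀ * Real.exp (-((1 + ε) * (L * Real.log (1 / σ) + C₀ + A' * Z +
        c₁ * Real.log (2 / (K * σ))))) ≤ ‖∑' n : ℕ, tw f σ n‖ := by
    intro σ hσ hσ1 hσδ m₀ hm₀ hm
    have h1 := (EulerProduct.eulerProduct (f := tw f σ) (htw1 σ) (htwmul σ hσ) (hsumm σ hσ hσ1)
      (htw0 σ hσ)).norm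
    refine ge_of_tendsto h1 (eventually_atTop.mpr ⟨P₀, fun N hN => ?_⟩)
    have hsub : Nat.primesBelow P₀ ⊆ Nat.primesBelow N := by
      intro p hp
      rw [Nat.mem_primesBelow] at hp ⊢
      exact ⟨by omega, hp.2⟩
    rw [norm_prod, ← Finset.prod_sdiff hsub, mul_comm]
    set s := Nat.primesBelow N \ Nat.primesBelow P₀ with hs
    have h2 : ∀ p ∈ s, p.Prime ∧ P₀ ≤ p := by
      intro p hp
      rw [hs, Finset.mem_sdiff, Nat.mem_primesBelow, Nat.mem_primesBelow] at hp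
      obtain ⟨⟨_, h3⟩, h4⟩ := hp
      refine ⟨h3, ?_⟩
      by_contra h5
      exact h4 ⟨by omega, h3⟩
    apply mul_le_mul _ hm hm₀ (by positivity)
    calc Real.exp (-((1 + ε) * (L * Real.log (1 / σ) + C₀ + A' * Z + c₁ * Real.log (2 / (K * σ)))))
        ≤ Real.exp (∑ p ∈ s, -((1 + ε) * (bp f K A σ p + c₁ * (p : ℝ) ^ (-(1 + K * σ))))) := by
          apply Real.exp_le_exp.mpr
          rw [Finset.sum_neg_distrib, ← Finset.mul_sum, Finset.sum_add_distrib, ← Finset.mul_sum]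
          have h3 := hMbs σ hσ hσ1 s (fun p hp => (h2 p hp).1)
          have h5 := hδ (K * σ) (by positivity) hσδ s
          have h6 : s.filter Nat.Prime = s :=
            Finset.filter_true_of_mem (fun p hp => (h2 p hp).1)
          rw [h6] at h5
          have h7 := mul_le_mul_of_nonneg_left h5 hc₁0.le
          have h8 : ∑ p ∈ s, bp f K A σ p + c₁ * ∑ p ∈ s, (p : ℝ) ^ (-(1 + K * σ)) ≤
              L * Real.log (1 / σ) + C₀ + A' * Z + c₁ * Real.log (2 / (K * σ)) := add_le_add h3 h7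
          have h9 := mul_le_mul_of_nonneg_left h8 (show 0 ≤ 1 + ε by linarith)
          linarith
      _ = ∏ p ∈ s, Real.exp (-((1 + ε) * (bp f K A σ p + c₁ * (p : ℝ) ^ (-(1 + K * σ))))) := by
          rw [Real.exp_sum]
      _ ≤ ∏ p ∈ s, ‖∑' k : ℕ, tw f σ (p ^ k)‖ := by
          apply Finset.prod_le_prod
          · intro p _; positivity
          · intro p hp
            exact hElow p (h2 p hp).1 (h2 p hp).2 σ hσ
  -- the small primes
  have hlim : Tendsto (fun σ : ℝ => ∏ p ∈ Nat.primesBelow P₀, ‖∑' k : ℕ, tw f σ (p ^ k)‖)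
      (𝓝[>] 0) (𝓝 (∏ p ∈ Nat.primesBelow P₀, ‖∑' k : ℕ, f (p ^ k)‖)) := by
    apply tendsto_finsetProd
    intro p hp
    have hpp := Nat.prime_of_mem_primesBelow hp
    apply Tendsto.norm
    apply tendsto_tsum_of_dominated_convergence (pp_bound hK hA0 hA hpp).1
    · intro k
      have h1 : Tendsto (fun σ : ℝ => (((p ^ k : ℕ) : ℝ)) ^ (-σ)) (𝓝[>] 0) (𝓝 1) := by
        have h2 : Continuous (fun σ : ℝ => (((p ^ k : ℕ) : ℝ)) ^ (-σ)) := by
          have h3 : (((p ^ k : ℕ) : ℝ)) ≠ 0 := by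
            exact_mod_cast (pow_pos hpp.pos k).ne'
          exact Real.continuous_const_rpow h3 |>.comp continuous_neg
        have h4 := (h2.tendsto 0).mono_left (nhdsWithin_le_nhds (s := Set.Ioi 0))
        simpa using h4
      have h5 : Tendsto (fun σ : ℝ => f (p ^ k) * (((((p ^ k : ℕ) : ℝ)) ^ (-σ) : ℝ) : ℂ)) (𝓝[>] 0)
          (𝓝 (f (p ^ k) * ((1 : ℝ) : ℂ))) :=
        ((Complex.continuous_ofReal.tendsto _).comp h1).const_mul _
      simpa [tw] using h5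
    · filter_upwards [self_mem_nhdsWithin] with σ hσ k
      exact norm_tw_le f (le_of_lt hσ) (Nat.one_le_pow _ _ hpp.pos)
  have hpos : 0 < ∏ p ∈ Nat.primesBelow P₀, ‖∑' k : ℕ, f (p ^ k)‖ := by
    apply Finset.prod_pos
    intro p hp
    have hpp := Nat.prime_of_mem_primesBelow hp
    obtain ⟨L, hL0, hL⟩ := heuler p hpp
    have h1 : Summable (fun k : ℕ => f (p ^ k)) := (pp_bound hK hA0 hA hpp).1.of_norm
    have h2 : ∑' k : ℕ, f (p ^ k) = L := tendsto_nhds_unique h1.hasSum.tendsto_sum_nat hL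
    rw [h2]
    exact norm_pos_iff.mpr hL0
  set m₀ : ℝ := (∏ p ∈ Nat.primesBelow P₀, ‖∑' k : ℕ, f (p ^ k)‖) / 2 with hm₀
  have hm₀pos : 0 < m₀ := by positivity
  set C : ℝ := B * Z with hC
  set D : ℝ := m₀ * Real.exp (-((1 + ε) * (C₀ + A' * Z + c₁ * Real.log (2 / K)))) with hD
  have hDpos : 0 < D := by positivity
  have hfinal : ∀ᶠ σ : ℝ in 𝓝[>] 0, D ≤ C * σ ^ (1 - θ) := by
    have e1 : ∀ᶠ σ : ℝ in 𝓝[>] 0, m₀ < ∏ p ∈ Nat.primesBelow P₀, ‖∑' k : ℕ, tw f σ (p ^ k)‖ :=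
      hlim.eventually_const_lt (by rw [hm₀]; linarith)
    have e2 : ∀ᶠ σ : ℝ in 𝓝[>] 0, K * σ < δ₀ := by
      have : Tendsto (fun σ : ℝ => K * σ) (𝓝[>] 0) (𝓝 (K * 0)) :=
        ((continuous_const.mul continuous_id).tendsto 0).mono_left nhdsWithin_le_nhds
      rw [mul_zero] at this
      exact this.eventually_lt_const hδ₀
    have e3 : ∀ᶠ σ : ℝ in 𝓝[>] 0, σ < 1 := by
      have : Tendsto (fun σ : ℝ => σ) (𝓝[>] 0) (𝓝 0) :=
        (continuous_id.tendsto 0).mono_left nhdsWithin_le_nhds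
      exact this.eventually_lt_const one_pos
    filter_upwards [e1, e2, e3, self_mem_nhdsWithin] with σ h1 h2 hσ1 hσ
    have hσ0 : 0 < σ := hσ
    have h3 := hlow σ hσ0 hσ1 h2 m₀ hm₀pos.le h1.le
    have h4 : ‖∑' n : ℕ, tw f σ n‖ ≤ σ * C := abel_bound hB0 hκ0 hB hσ0 (hsumm σ hσ0 hσ1).of_norm
    have h5 : m₀ * Real.exp (-((1 + ε) * (L * Real.log (1 / σ) + C₀ + A' * Z +
        c₁ * Real.log (2 / (K * σ))))) = D * σ ^ θ := by
      rw [hD, mul_assoc]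
      congr 1
      rw [Real.rpow_def_of_pos hσ0, ← Real.exp_add]
      congr 1
      have h6 : Real.log (2 / (K * σ)) = Real.log (2 / K) - Real.log σ := by
        rw [← Real.log_div (by positivity) (by positivity)]
        congr 1
        field_simp
      have h7 : Real.log (1 / σ) = - Real.log σ := by
        rw [one_div, Real.log_inv]
      rw [h6, h7, hθ]
      ring
    rw [h5] at h3
    have h6 : D * σ ^ θ ≤ σ * C := h3.trans h4
    have h7 : σ = σ ^ (1 - θ) * σ ^ θ := by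
      rw [← Real.rpow_add hσ0]
      simp
    have h8 : 0 < σ ^ θ := by positivity
    have h9 : D * σ ^ θ ≤ (C * σ ^ (1 - θ)) * σ ^ θ := by
      calc D * σ ^ θ ≤ σ * C := h6
        _ = (σ ^ (1 - θ) * σ ^ θ) * C := by rw [← h7]
        _ = (C * σ ^ (1 - θ)) * σ ^ θ := by ring
    exact le_of_mul_le_mul_right h9 h8
  have hzero : Tendsto (fun σ : ℝ => C * σ ^ (1 - θ)) (𝓝[>] 0) (𝓝 (C * 0)) := by
    apply Tendsto.const_mul
    have h1 : Tendsto (fun σ : ℝ => σ ^ (1 - θ)) (𝓝 0) (𝓝 (0 ^ (1 - θ))) :=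
      (Real.continuousAt_rpow_const 0 (1 - θ) (Or.inr (by linarith))).tendsto
    rw [Real.zero_rpow (by linarith)] at h1
    exact h1.mono_left nhdsWithin_le_nhds
  have := ge_of_tendsto hzero hfinal
  linarith [this, mul_zero C]

/-- Version of `key` for real `x`. -/
lemma key_real {f : ℕ → ℂ} (hf : IsMO f) {K : ℕ} (hK : 1 ≤ K) {L C₀ : ℝ} (hL : 0 ≤ L)
    (hsum : ∀ σ : ℝ, 0 < σ → σ < 1 → ∀ s : Finset ℕ, (∀ p ∈ s, p.Prime) →
      ∑ p ∈ s, ∑ j ∈ Ico 1 K, ‖f (p ^ j)‖ * (p : ℝ) ^ (-(j * σ)) ≤ L * Real.log (1 / σ) + C₀)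
    {c : ℝ} (hc : 2 * c + L < 1) :
    ∃ᶠ x : ℝ in atTop, c * x ^ (-(1 / (K : ℝ))) < ‖S f x‖ := by
  intro h
  rw [eventually_atTop] at h
  obtain ⟨x₀, hx₀⟩ := h
  obtain ⟨N₀, hN₀⟩ := exists_nat_ge x₀
  refine key hf hK hL hsum hc (N₀ := N₀) fun N hN => ?_
  have h1 := hx₀ N (hN₀.trans (by exact_mod_cast hN))
  rw [not_lt] at h1
  simpa [S] using h1

end Pool.Agent.MOFunctions
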