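import Mathlib

/-! Landau's theorem for Dirichlet series with nonnegative coefficients, half-plane version. -/

open Complex Filter Topology LSeries

namespace Pool.Agent.MOFunctions

lemma iterate_logMul (b : ℕ → ℂ) (k n : ℕ) : (logMul^[k] b) n = (Real.log n : ℂ) ^ k * b n := by
  induction k with
  | zero => simp
  | succ k ih =>
    rw [Function.iterate_succ', Function.comp_apply, logMul, ih, ← natCast_log]
    ring

/-- **Landau's theorem** (half-plane version). If `b ≥ 0`, the Dirichlet series of `b` converges at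
`x` and agrees with `H` to the right of `x`, and `H` is holomorphic on `Re s > c`, then the
Dirichlet series converges to `H` at every real point `> c`. -/
lemma landau {b : ℕ → ℂ} {r : ℕ → ℝ} (hb : ∀ n, b n = r n) (hr : ∀ n, 0 ≤ r n) {H : ℂ → ℂ}
    {c x : ℝ} (hH : DifferentiableOn ℂ H {s | c < s.re}) (hx : LSeriesSummable b x)
    (hHb : ∀ s : ℂ, x < s.re → H s = LSeries b s) {y : ℝ} (hy : c < y) :
    LSeriesHasSum b y (H y) := by
  by_cases hxy : x < y
  · rw [hHb y (by simpa using hxy)]
    have : LSeriesSummable b y := hx.of_re_le_re (by simpa using hxy.le)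
    exact this.hasSum
  rw [not_lt] at hxy
  set σ : ℝ := x + 1 with hσ
  have hab : abscissaOfAbsConv b < (σ : ℂ).re := by
    refine lt_of_le_of_lt hx.abscissaOfAbsConv_le ?_
    rw [Complex.ofReal_re, Complex.ofReal_re, EReal.coe_lt_coe_iff]
    linarith
  -- Taylor series
  have hball : Metric.ball (σ : ℂ) (σ - c) ⊆ {s : ℂ | c < s.re} := by
    intro s hs
    rw [Metric.mem_ball, dist_comm, dist_eq_norm] at hs
    have h1 : ((σ : ℂ) - s).re ≤ ‖(σ : ℂ) - s‖ := Complex.re_le_norm _
    simp only [Complex.sub_re, Complex.ofReal_re] at h1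
    simp only [Set.mem_ofPred_eq]
    linarith
  have hymem : (y : ℂ) ∈ Metric.ball (σ : ℂ) (σ - c) := by
    rw [Metric.mem_ball, Complex.dist_eq, ← Complex.ofReal_sub, Complex.norm_real, Real.norm_eq_abs,
      abs_sub_comm, abs_of_nonneg (by linarith)]
    linarith
  have h1 := Complex.hasSum_taylorSeries_on_ball (hH.mono hball) hymem
  have h2 : ∀ k : ℕ, iteratedDeriv k H σ = (-1) ^ k * LSeries (logMul^[k] b) σ := by
    intro k
    rw [← LSeries_iteratedDeriv k hab]
    apply Filter.EventuallyEq.iteratedDeriv_eq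
    have h3 : {s : ℂ | x < s.re} ∈ 𝓝 (σ : ℂ) :=
      (isOpen_lt continuous_const Complex.continuous_re).mem_nhds (by simp [hσ])
    filter_upwards [h3] with s hs
    exact hHb s hs
  -- the double series
  set a : ℕ → ℕ → ℝ := fun k n => (Real.log n) ^ k * (r n * (n : ℝ) ^ (-σ)) * if n = 0 then 0 else 1
    with ha
  have ha0 : ∀ k n, 0 ≤ a k n := by
    intro k n
    simp only [ha]
    have := hr n
    have h4 : 0 ≤ Real.log n := Real.log_natCast_nonneg n
    split_ifs <;> positivity
  have hterm : ∀ k n, term (logMul^[k] b) σ n = (a k n : ℂ) := by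
    intro k n
    rcases eq_or_ne n 0 with h | h
    · simp [ha, h]
    · rw [term_of_ne_zero h, iterate_logMul, hb]
      simp only [ha, if_neg h, mul_one]
      push_cast
      rw [Complex.ofReal_cpow (by positivity), mul_div_assoc, div_eq_mul_inv, ← Complex.cpow_neg]
      push_cast
      ring
  have hsum : ∀ k, Summable (a k) := by
    intro k
    have h4 : LSeriesSummable (logMul^[k] b) σ := by
      apply LSeriesSummable_of_abscissaOfAbsConv_lt_re
      rwa [absicssaOfAbsConv_logPowMul]
    have h5 : Summable (fun n => ((a k n : ℝ) : ℂ)) := by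
      have : (fun n => ((a k n : ℝ) : ℂ)) = term (logMul^[k] b) σ := by
        ext n; rw [hterm]
      rw [this]
      exact h4
    exact Complex.summable_ofReal.mp h5
  set t : ℕ × ℕ → ℝ := fun q => (q.1.factorial : ℝ)⁻¹ * (σ - y) ^ q.1 * a q.1 q.2 with ht
  have hσy : 0 ≤ σ - y := by rw [hσ]; linarith
  have ht0 : 0 ≤ t := by
    intro q
    simp only [ht, Pi.zero_apply]
    have := ha0 q.1 q.2
    positivity
  have hT : ∀ k, HasSum (fun n => t (k, n)) ((k.factorial : ℝ)⁻¹ * (σ - y) ^ k * ∑' n, a k n) := by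
    intro k
    exact (hsum k).hasSum.mul_left _
  have h6 : HasSum (fun k : ℕ => (((k.factorial : ℝ)⁻¹ * (σ - y) ^ k * ∑' n, a k n : ℝ) : ℂ)) (H y) := by
    refine h1.congr_fun ?_
    intro k
    rw [h2, LSeries, tsum_congr (hterm k), ← Complex.ofReal_tsum]
    push_cast
    rw [smul_eq_mul, smul_eq_mul]
    have : ((y : ℂ) - σ) ^ k = (-1) ^ k * ((σ : ℂ) - y) ^ k := by
      rw [← mul_pow]; ring
    rw [this]
    have h7 : ((-1 : ℂ)) ^ k * (-1) ^ k = 1 := by
      rw [← mul_pow]; norm_num
    linear_combination (-(((k.factorial : ℂ))⁻¹ * ((σ : ℂ) - y) ^ k * ∑' n, ((a k n : ℝ) : ℂ))) * h7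
  have hHre : H y = (((H y).re : ℝ) : ℂ) := by
    have h8 := Complex.hasSum_im h6
    simp only [Complex.ofReal_im] at h8
    have h9 := h8.unique hasSum_zero
    apply Complex.ext
    · simp
    · simp [h9]
  have h10 : HasSum (fun k : ℕ => ((k.factorial : ℝ)⁻¹ * (σ - y) ^ k * ∑' n, a k n)) (H y).re := by
    have h8 := Complex.hasSum_re h6
    simp only [Complex.ofReal_re] at h8
    exact h8
  have h11 : Summable t := by
    rw [summable_prod_of_nonneg ht0]
    refine ⟨fun k => (hT k).summable, ?_⟩
    refine h10.summable.congr fun k => ?_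
    exact (hT k).tsum_eq.symm
  have h12 : HasSum t (H y).re := by
    have h13 := h11.hasSum.prod_fiberwise hT
    have h14 := h11.hasSum
    rwa [h13.unique h10] at h14
  -- swap
  have h15 : HasSum (fun q : ℕ × ℕ => t (q.2, q.1)) (H y).re :=
    (Equiv.prodComm ℕ ℕ).hasSum_iff.mpr h12
  have h16 : ∀ n, HasSum (fun k => t (k, n)) ((r n * (n : ℝ) ^ (-y)) * if n = 0 then 0 else 1) := by
    intro n
    rcases eq_or_ne n 0 with h | h
    · simp [ht, ha, h, hasSum_zero]
    · have hn : (0 : ℝ) < n := by exact_mod_cast Nat.pos_of_ne_zero h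
      have h17 : HasSum (fun k : ℕ => (k.factorial : ℝ)⁻¹ * (Real.log n * (σ - y)) ^ k)
          (Real.exp (Real.log n * (σ - y))) := by
        have := NormedSpace.expSeries_div_hasSum_exp (𝔸 := ℝ) (Real.log n * (σ - y))
        rw [← Real.exp_eq_exp_ℝ] at this
        refine this.congr_fun ?_
        intro k
        rw [div_eq_inv_mul]
      have h18 := h17.mul_right (r n * (n : ℝ) ^ (-σ))
      have h19 : Real.exp (Real.log n * (σ - y)) * (r n * (n : ℝ) ^ (-σ)) =
          r n * (n : ℝ) ^ (-y) * if n = 0 then 0 else 1 := by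
        rw [if_neg h, mul_one, ← Real.rpow_def_of_pos hn, mul_left_comm, ← Real.rpow_add hn]
        congr 2
        ring
      rw [← h19]
      refine h18.congr_fun ?_
      intro k
      simp only [ht, ha, if_neg h, mul_one]
      rw [mul_pow]
      ring
  have h20 := h15.prod_fiberwise h16
  rw [LSeriesHasSum, hHre]
  have h21 := Complex.hasSum_ofReal.mpr h20
  refine h21.congr_fun ?_
  intro n
  rcases eq_or_ne n 0 with h | h
  · simp [h]
  · rw [term_of_ne_zero h, hb, if_neg h, mul_one]
    push_cast
    rw [Complex.ofReal_cpow (by positivity), div_eq_mul_inv, ← Complex.cpow_neg]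
    push_cast
    ring

end Pool.Agent.MOFunctions
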