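import Pool.Agent.MOFunctions.Continuation
import Pool.Agent.MOFunctions.Landau

/-! Completely multiplicative functions with `|h(n)| ≤ 1/n` and small partial sums. -/

open Complex Filter Topology Finset ArithmeticFunction
open scoped ComplexOrder

namespace Pool.Agent.MOFunctions

/-- completely multiplicative with `h 0 = 0` -/
structure CM (h : ℕ → ℂ) : Prop where
  zero : h 0 = 0
  one : h 1 = 1
  mul : ∀ m n, h (m * n) = h m * h n

/-- `n ↦ log n * h n` -/
noncomputable def DD (h : ArithmeticFunction ℂ) : ArithmeticFunction ℂ :=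
  ⟨fun n => (Real.log n : ℂ) * h n, by simp⟩

lemma DD_apply (h : ArithmeticFunction ℂ) (n : ℕ) : DD h n = (Real.log n : ℂ) * h n := rfl

lemma DD_mul (g h : ArithmeticFunction ℂ) : DD (g * h) = DD g * h + g * DD h := by
  ext n
  rw [ArithmeticFunction.add_apply, ArithmeticFunction.mul_apply, ArithmeticFunction.mul_apply,
    ← Finset.sum_add_distrib, DD_apply, ArithmeticFunction.mul_apply, Finset.mul_sum]
  apply Finset.sum_congr rfl
  intro x hx
  rw [Nat.mem_divisorsAntidiagonal] at hx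
  obtain ⟨hx1, hx2⟩ := hx
  have h1 : x.1 ≠ 0 := fun h => hx2 (by rw [← hx1, h, zero_mul])
  have h2 : x.2 ≠ 0 := fun h => hx2 (by rw [← hx1, h, mul_zero])
  rw [DD_apply, DD_apply, ← hx1]
  push_cast
  rw [Real.log_mul (by exact_mod_cast h1) (by exact_mod_cast h2)]
  push_cast
  ring

/-- `n ↦ Λ(n) h(n)` -/
noncomputable def LL (h : ArithmeticFunction ℂ) : ArithmeticFunction ℂ :=
  ⟨fun n => (vonMangoldt n : ℂ) * h n, by simp⟩

lemma LL_apply (h : ArithmeticFunction ℂ) (n : ℕ) : LL h n = (vonMangoldt n : ℂ) * h n := rfl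

lemma DD_cm {h : ArithmeticFunction ℂ} (hm : ∀ m n, h (m * n) = h m * h n) :
    DD h = LL h * h := by
  ext n
  rw [ArithmeticFunction.mul_apply, DD_apply, ← vonMangoldt_sum]
  have h1 : ∑ x ∈ n.divisorsAntidiagonal, LL h x.1 * h x.2 =
      ∑ x ∈ n.divisorsAntidiagonal, (vonMangoldt x.1 : ℂ) * h n := by
    apply Finset.sum_congr rfl
    intro x hx
    rw [Nat.mem_divisorsAntidiagonal] at hx
    rw [LL_apply, mul_assoc, ← hm, hx.1]
  rw [h1, ← Finset.sum_mul, Nat.sum_divisorsAntidiagonal (fun i _ => (vonMangoldt i : ℂ))]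
  push_cast
  rfl

lemma nonneg_of_deriv {b c : ArithmeticFunction ℂ} (h : DD b = b * c) (hb1 : 0 ≤ b 1)
    (hc1 : c 1 = 0) (hc : ∀ n, 0 ≤ c n) (n : ℕ) : 0 ≤ b n := by
  induction n using Nat.strong_induction_on with
  | _ n ih =>
    rcases Nat.lt_or_ge n 2 with hn | hn
    · interval_cases n
      · simp
      · exact hb1
    · have h1 : (Real.log n : ℂ) * b n = ∑ x ∈ n.divisorsAntidiagonal, b x.1 * c x.2 := by
        rw [← DD_apply, h, ArithmeticFunction.mul_apply]
      have h2 : 0 ≤ (Real.log n : ℂ) * b n := by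
        rw [h1]
        apply Finset.sum_nonneg
        intro x hx
        rw [Nat.mem_divisorsAntidiagonal] at hx
        rcases eq_or_ne x.2 1 with hx1 | hx1
        · rw [hx1, hc1, mul_zero]
        · apply mul_nonneg _ (hc _)
          apply ih
          have hx2 : x.2 ≠ 0 := fun h => hx.2 (by rw [← hx.1, h, mul_zero])
          have hx3 : x.1 ≠ 0 := fun h => hx.2 (by rw [← hx.1, h, zero_mul])
          rw [← hx.1]
          have : 2 ≤ x.2 := by omega
          nlinarith [Nat.pos_of_ne_zero hx3]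
      have h3 : 0 < Real.log n := Real.log_pos (by exact_mod_cast (by omega : 1 < n))
      have h4 : (0 : ℂ) ≤ ((Real.log n)⁻¹ : ℝ) := by
        exact_mod_cast (inv_pos.mpr h3).le
      have h5 := mul_nonneg h4 h2
      rwa [← mul_assoc, ← Complex.ofReal_mul, inv_mul_cancel₀ h3.ne', Complex.ofReal_one,
        one_mul] at h5

/-- `u(n) = 1/n` -/
noncomputable def uu (n : ℕ) : ℂ := (n : ℂ)⁻¹

lemma cm_uu : CM uu := ⟨by simp [uu], by simp [uu], fun m n => by simp [uu, mul_comm]⟩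

/-- conjugate function -/
noncomputable def cj (h : ℕ → ℂ) (n : ℕ) : ℂ := (starRingEnd ℂ) (h n)

lemma cm_cj {h : ℕ → ℂ} (hh : CM h) : CM (cj h) :=
  ⟨by simp [cj, hh.zero], by simp [cj, hh.one], fun m n => by simp [cj, hh.mul]⟩

lemma norm_cj (h : ℕ → ℂ) (n : ℕ) : ‖cj h n‖ = ‖h n‖ := by simp [cj]

/-- `(1/n) * h` convolved with its conjugate -/
noncomputable def bb (h : ℕ → ℂ) : ℕ → ℂ := LSeries.convolution (LSeries.convolution uu h) (LSeries.convolution uu (cj h))

lemma bb_nonneg {h : ℕ → ℂ} (hh : CM h) (hn : ∀ n, ‖h n‖ ≤ (n : ℝ)⁻¹) (n : ℕ) : 0 ≤ bb h n := by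
  set U : ArithmeticFunction ℂ := ⟨uu, cm_uu.zero⟩ with hU
  set A : ArithmeticFunction ℂ := ⟨h, hh.zero⟩ with hA
  set A' : ArithmeticFunction ℂ := ⟨cj h, (cm_cj hh).zero⟩ with hA'
  have hUa : ∀ n, U n = uu n := fun n => rfl
  have hAa : ∀ n, A n = h n := fun n => rfl
  have hA'a : ∀ n, A' n = cj h n := fun n => rfl
  have h1 : bb h = ((U * A) * (U * A') : ArithmeticFunction ℂ) := by
    rw [bb]
    rw [← ArithmeticFunction.coe_mul, ← ArithmeticFunction.coe_mul, ← ArithmeticFunction.coe_mul]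
    rfl
  rw [h1]
  have hDU : DD U = LL U * U := DD_cm cm_uu.mul
  have hDA : DD A = LL A * A := DD_cm hh.mul
  have hDA' : DD A' = LL A' * A' := DD_cm (cm_cj hh).mul
  refine nonneg_of_deriv (c := LL U + LL U + LL A + LL A') ?_ ?_ ?_ ?_ n
  · rw [DD_mul, DD_mul, DD_mul, hDU, hDA, hDA']
    ring
  · simp [ArithmeticFunction.mul_apply, hUa, hAa, hA'a, cm_uu.one, hh.one, (cm_cj hh).one]
  · simp [ArithmeticFunction.add_apply, LL_apply]
  · intro m
    rw [ArithmeticFunction.add_apply, ArithmeticFunction.add_apply, ArithmeticFunction.add_apply,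
      LL_apply, LL_apply, LL_apply, hUa, hAa, hA'a, cj, uu]
    have h2 : (vonMangoldt m : ℂ) * (m : ℂ)⁻¹ + (vonMangoldt m : ℂ) * (m : ℂ)⁻¹ +
        (vonMangoldt m : ℂ) * h m + (vonMangoldt m : ℂ) * (starRingEnd ℂ) (h m) =
        ((vonMangoldt m * (2 * (m : ℝ)⁻¹ + 2 * (h m).re) : ℝ) : ℂ) := by
      have h3 : h m + (starRingEnd ℂ) (h m) = ((2 * (h m).re : ℝ) : ℂ) := Complex.add_conj _
      push_cast at h3 ⊢
      linear_combination (vonMangoldt m : ℂ) * h3
    rw [h2]
    have h4 : -(m : ℝ)⁻¹ ≤ (h m).re := by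
      have := (abs_le.mp ((Complex.abs_re_le_norm (h m)).trans (hn m))).1
      exact this
    have h5 : 0 ≤ vonMangoldt m * (2 * (m : ℝ)⁻¹ + 2 * (h m).re) :=
      mul_nonneg vonMangoldt_nonneg (by linarith)
    exact_mod_cast h5

lemma norm_le_of_primes {h : ℕ → ℂ} (hh : CM h) (hp : ∀ p : ℕ, p.Prime → ‖h p‖ ≤ (p : ℝ)⁻¹)
    (n : ℕ) : ‖h n‖ ≤ (n : ℝ)⁻¹ := by
  induction n using Nat.recOnMul with
  | zero => simp [hh.zero]
  | one => simp [hh.one]
  | prime p h => exact hp p h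
  | mul a b ha hb =>
    rw [hh.mul, norm_mul]
    push_cast
    rw [mul_inv]
    exact mul_le_mul ha hb (norm_nonneg _) (by positivity)

lemma lsummable {h : ℕ → ℂ} (hn : ∀ n, ‖h n‖ ≤ (n : ℝ)⁻¹) {s : ℂ} (hs : 0 < s.re) :
    LSeriesSummable h s := by
  refine LSeriesSummable_of_le_const_mul_rpow (x := 0) hs ⟨1, fun n _ => ?_⟩
  rw [zero_sub, Real.rpow_neg_one, one_mul]
  exact hn n

lemma norm_uu (n : ℕ) : ‖uu n‖ = (n : ℝ)⁻¹ := by simp [uu]

lemma LSeries_uu {s : ℂ} (hs : 0 < s.re) : LSeries uu s = riemannZeta (s + 1) := by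
  rw [zeta_eq_tsum_one_div_nat_cpow (by simpa using hs), LSeries]
  congr 1
  ext n
  rcases eq_or_ne n 0 with h | h
  · subst h
    have : s + 1 ≠ 0 := by
      intro h
      have := congrArg Complex.re h
      simp at this
      linarith
    simp [this]
  · rw [LSeries.term_of_ne_zero h, uu, Complex.cpow_add _ _ (by exact_mod_cast h), Complex.cpow_one,
      one_div, mul_inv, div_eq_mul_inv, mul_comm]

lemma bb_summable {h : ℕ → ℂ} (hn : ∀ n, ‖h n‖ ≤ (n : ℝ)⁻¹) {s : ℂ} (hs : 0 < s.re) :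
    LSeriesSummable (bb h) s := by
  have h1 := lsummable (fun n => (norm_uu n).le) hs
  have h2 := lsummable hn hs
  have h3 : LSeriesSummable (cj h) s := lsummable (fun n => by rw [norm_cj]; exact hn n) hs
  exact (h1.convolution h2).convolution (h1.convolution h3)

lemma LSeries_bb {h : ℕ → ℂ} (hn : ∀ n, ‖h n‖ ≤ (n : ℝ)⁻¹) {s : ℂ} (hs : 0 < s.re) :
    LSeries (bb h) s = (riemannZeta (s + 1) * LSeries h s) * (riemannZeta (s + 1) * LSeries (cj h) s) := by
  have h1 := lsummable (fun n => (norm_uu n).le) hs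
  have h2 := lsummable hn hs
  have h3 : LSeriesSummable (cj h) s := lsummable (fun n => by rw [norm_cj]; exact hn n) hs
  rw [bb, LSeries_convolution' (h1.convolution h2) (h1.convolution h3),
    LSeries_convolution' h1 h2, LSeries_convolution' h1 h3, LSeries_uu hs]

/-- restriction to smooth numbers -/
noncomputable def rs (N : ℕ) (h : ℕ → ℂ) : ℕ → ℂ := (Nat.smoothNumbers N).indicator h

lemma rs_conv (N : ℕ) (g h : ℕ → ℂ) : rs N (LSeries.convolution g h) = LSeries.convolution (rs N g) (rs N h) := by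
  ext n
  simp only [rs]
  by_cases hn : n ∈ Nat.smoothNumbers N
  · rw [Set.indicator_of_mem hn, LSeries.convolution_def, LSeries.convolution_def]
    apply Finset.sum_congr rfl
    intro x hx
    rw [Nat.mem_divisorsAntidiagonal] at hx
    rw [Set.indicator_of_mem (Nat.mem_smoothNumbers_of_dvd hn (Dvd.intro _ hx.1)),
      Set.indicator_of_mem (Nat.mem_smoothNumbers_of_dvd hn (Dvd.intro_left _ hx.1))]
  · rw [Set.indicator_of_notMem hn, LSeries.convolution_def]
    symm
    apply Finset.sum_eq_zero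
    intro x hx
    rw [Nat.mem_divisorsAntidiagonal] at hx
    by_cases h1 : x.1 ∈ Nat.smoothNumbers N
    · by_cases h2 : x.2 ∈ Nat.smoothNumbers N
      · exact absurd (hx.1 ▸ Nat.mul_mem_smoothNumbers h1 h2) hn
      · rw [Set.indicator_of_notMem h2, mul_zero]
    · rw [Set.indicator_of_notMem h1, zero_mul]

/-- the twist as a monoid homomorphism -/
noncomputable def hom {h : ℕ → ℂ} (hh : CM h) (σ : ℝ) : ℕ →* ℂ where
  toFun n := h n * (n : ℂ) ^ (-(σ : ℂ))
  map_one' := by simp [hh.one]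
  map_mul' m n := by
    rw [hh.mul, Nat.cast_mul, Complex.natCast_mul_natCast_cpow]
    ring

lemma hom_apply {h : ℕ → ℂ} (hh : CM h) (σ : ℝ) (n : ℕ) :
    hom hh σ n = h n * (n : ℂ) ^ (-(σ : ℂ)) := rfl

lemma norm_hom {h : ℕ → ℂ} (hh : CM h) (hn : ∀ n, ‖h n‖ ≤ (n : ℝ)⁻¹) (σ : ℝ) {n : ℕ} (h1 : 1 ≤ n) :
    ‖hom hh σ n‖ ≤ (n : ℝ) ^ (-(1 + σ)) := by
  have h0 : (0 : ℝ) < n := by exact_mod_cast h1
  rw [hom_apply, norm_mul, Complex.norm_natCast_cpow_of_pos h1]
  have : (-(σ : ℂ)).re = -σ := by simp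
  rw [this, neg_add, Real.rpow_add h0, Real.rpow_neg_one]
  gcongr
  exact hn n

lemma prime_rpow_lt_one {p : ℕ} (hp : p.Prime) {τ : ℝ} (hτ : 0 < τ) : (p : ℝ) ^ (-τ) < 1 :=
  Real.rpow_lt_one_of_one_lt_of_neg (by exact_mod_cast hp.one_lt) (by linarith)

lemma rs_hasSum {h : ℕ → ℂ} (hh : CM h) (hn : ∀ n, ‖h n‖ ≤ (n : ℝ)⁻¹) {σ : ℝ} (hσ : -1 < σ) (N : ℕ) :
    LSeriesHasSum (rs N h) σ (∏ p ∈ N.primesBelow, (1 - hom hh σ p)⁻¹) := by
  have h1 := (EulerProduct.summable_and_hasSum_smoothNumbers_prod_primesBelow_geometric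
    (f := hom hh σ) (fun {p} hp => (norm_hom hh hn σ hp.one_le).trans_lt
      (prime_rpow_lt_one hp (by linarith))) N).2
  have h2 := (hasSum_subtype_iff_indicator (f := hom hh σ)).mp h1
  rw [LSeriesHasSum]
  refine h2.congr_fun fun n => ?_
  rcases eq_or_ne n 0 with h0 | h0
  · subst h0
    rw [LSeries.term_zero, Set.indicator_of_notMem]
    exact fun h => Nat.ne_zero_of_mem_smoothNumbers h rfl
  · rw [LSeries.term_of_ne_zero h0, rs]
    by_cases h3 : n ∈ Nat.smoothNumbers N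
    · rw [Set.indicator_of_mem h3, Set.indicator_of_mem h3, hom_apply, div_eq_mul_inv,
        ← Complex.cpow_neg]
    · rw [Set.indicator_of_notMem h3, Set.indicator_of_notMem h3, zero_div]

lemma hom_uu (σ : ℝ) {n : ℕ} (h1 : 1 ≤ n) : hom cm_uu σ n = (((n : ℝ) ^ (-(1 + σ)) : ℝ) : ℂ) := by
  have h0 : (0 : ℝ) < n := by exact_mod_cast h1
  rw [hom_apply, neg_add, Real.rpow_add h0, Real.rpow_neg_one, uu]
  push_cast
  rw [Complex.ofReal_cpow h0.le]
  push_cast
  rfl

/-- lower bound for `D(σ)` -/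
lemma lower {h : ℕ → ℂ} (hh : CM h) (hn : ∀ n, ‖h n‖ ≤ (n : ℝ)⁻¹) {σ : ℝ} (hσ : -(1 / 2) < σ)
    {z : ℂ} (hz : LSeriesHasSum (bb h) σ z) :
    (∑' n : ℕ, (n : ℝ) ^ (-(2 * (1 + σ)))) ^ 2 ≤ ‖z‖ := by
  have hcn : ∀ n, ‖cj h n‖ ≤ (n : ℝ)⁻¹ := fun n => by rw [norm_cj]; exact hn n
  set τ : ℝ := 1 + σ with hτ
  have hτ0 : 0 < τ := by linarith
  -- sum of norms
  have hzn : HasSum (fun n => ‖LSeries.term (bb h) σ n‖) ‖z‖ := by
    have hnn : ∀ n, 0 ≤ LSeries.term (bb h) σ n := by
      intro n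
      rcases eq_or_ne n 0 with h0 | h0
      · simp [h0]
      · have hn0 : (0 : ℝ) < n := by exact_mod_cast Nat.pos_of_ne_zero h0
        rw [LSeries.term_of_ne_zero h0, div_eq_mul_inv, ← Complex.cpow_neg]
        apply mul_nonneg (bb_nonneg hh hn n)
        have : (n : ℂ) ^ (-(σ : ℂ)) = (((n : ℝ) ^ (-σ) : ℝ) : ℂ) := by
          rw [Complex.ofReal_cpow hn0.le]
          push_cast
          rfl
        rw [this]
        exact_mod_cast (by positivity : (0 : ℝ) ≤ (n : ℝ) ^ (-σ))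
    have h1 : ∀ n, LSeries.term (bb h) σ n = ((‖LSeries.term (bb h) σ n‖ : ℝ) : ℂ) := by
      intro n
      exact (Complex.eq_coe_norm_of_nonneg (hnn n))
    have h2 : HasSum (fun n => ((‖LSeries.term (bb h) σ n‖ : ℝ) : ℂ)) z := by
      refine HasSum.congr_fun (show HasSum _ z from hz) fun n => (h1 n).symm
    have h3 := Complex.hasSum_re h2
    simp only [Complex.ofReal_re] at h3
    have h4 := Complex.hasSum_im h2
    simp only [Complex.ofReal_im] at h4
    have h5 : z.im = 0 := h4.unique hasSum_zero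
    have h6 : 0 ≤ z.re := h3.nonneg fun n => norm_nonneg _
    have h7 : ‖z‖ = z.re := by
      have : z = ((z.re : ℝ) : ℂ) := by apply Complex.ext <;> simp [h5]
      rw [this, Complex.norm_real, Real.norm_of_nonneg h6, Complex.ofReal_re]
    rw [h7]
    exact h3
  -- the finite Euler products
  have key : ∀ N : ℕ, (∏ p ∈ N.primesBelow, (1 - ((p : ℝ) ^ (-τ)) ^ 2)⁻¹) ^ 2 ≤ ‖z‖ := by
    intro N
    have e1 := rs_hasSum cm_uu (fun n => (norm_uu n).le) (σ := σ) (by linarith) N
    have e2 := rs_hasSum hh hn (σ := σ) (by linarith) N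
    have e3 := rs_hasSum (cm_cj hh) hcn (σ := σ) (by linarith) N
    have e4 := (e1.convolution e2).convolution (e1.convolution e3)
    rw [← rs_conv, ← rs_conv, ← rs_conv] at e4
    have e5 : ‖(∏ p ∈ N.primesBelow, (1 - hom cm_uu σ p)⁻¹) * (∏ p ∈ N.primesBelow, (1 - hom hh σ p)⁻¹) *
        ((∏ p ∈ N.primesBelow, (1 - hom cm_uu σ p)⁻¹) *
          (∏ p ∈ N.primesBelow, (1 - hom (cm_cj hh) σ p)⁻¹))‖ ≤ ‖z‖ := by
      rw [← hzn.tsum_eq, ← e4.tsum_eq]
      have hle : ∀ n, ‖LSeries.term (rs N (bb h)) σ n‖ ≤ ‖LSeries.term (bb h) σ n‖ := by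
        intro n
        rcases eq_or_ne n 0 with h0 | h0
        · simp [h0]
        · rw [LSeries.term_of_ne_zero h0, LSeries.term_of_ne_zero h0, rs]
          by_cases h3 : n ∈ Nat.smoothNumbers N
          · rw [Set.indicator_of_mem h3]
          · rw [Set.indicator_of_notMem h3, zero_div, norm_zero]
            exact norm_nonneg _
      exact tsum_of_norm_bounded hzn.summable.hasSum hle
    refine le_trans ?_ e5
    rw [← Finset.prod_mul_distrib, ← Finset.prod_mul_distrib, ← Finset.prod_mul_distrib, norm_prod,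
      ← Finset.prod_pow]
    apply Finset.prod_le_prod
    · intro p _; positivity
    · intro p hp
      have hpp := Nat.prime_of_mem_primesBelow hp
      set X : ℝ := (p : ℝ) ^ (-τ) with hX
      have hX0 : 0 < X := Real.rpow_pos_of_pos (by exact_mod_cast hpp.pos) _
      have hX1 : X < 1 := prime_rpow_lt_one hpp hτ0
      have g1 : ‖1 - hom cm_uu σ p‖ = 1 - X := by
        rw [hom_uu σ hpp.one_le, ← Complex.ofReal_one, ← Complex.ofReal_sub, Complex.norm_real,
          Real.norm_of_nonneg (by linarith)]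
      have g2 : ‖1 - hom hh σ p‖ ≤ 1 + X :=
        (norm_sub_le _ _).trans (by rw [norm_one]; gcongr; exact norm_hom hh hn σ hpp.one_le)
      have g3 : ‖1 - hom (cm_cj hh) σ p‖ ≤ 1 + X :=
        (norm_sub_le _ _).trans (by rw [norm_one]; gcongr; exact norm_hom (cm_cj hh) hcn σ hpp.one_le)
      have g2' : 0 < ‖1 - hom hh σ p‖ := by
        have := norm_sub_norm_le (1 : ℂ) (hom hh σ p)
        rw [norm_one] at this
        have h8 := norm_hom hh hn σ hpp.one_le
        linarith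
      have g3' : 0 < ‖1 - hom (cm_cj hh) σ p‖ := by
        have := norm_sub_norm_le (1 : ℂ) (hom (cm_cj hh) σ p)
        rw [norm_one] at this
        have h8 := norm_hom (cm_cj hh) hcn σ hpp.one_le
        linarith
      rw [norm_mul, norm_mul, norm_mul, norm_inv, norm_inv, norm_inv, g1]
      have h9 : (1 - X ^ 2)⁻¹ ^ 2 = (1 - X)⁻¹ * (1 + X)⁻¹ * ((1 - X)⁻¹ * (1 + X)⁻¹) := by
        rw [show 1 - X ^ 2 = (1 - X) * (1 + X) by ring, mul_inv]
        ring
      rw [h9]
      have h10 : 0 < 1 - X := by linarith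
      gcongr
  -- let N → ∞
  have key2 : ∀ N : ℕ, (∑ n ∈ range N, (n : ℝ) ^ (-(2 * τ))) ^ 2 ≤ ‖z‖ := by
    intro N
    refine le_trans ?_ (key N)
    have hnn : 0 ≤ ∑ n ∈ range N, (n : ℝ) ^ (-(2 * τ)) := Finset.sum_nonneg fun n _ => by positivity
    apply pow_le_pow_left₀ hnn
    let g : ℕ →* ℝ :=
      { toFun := fun n => (n : ℝ) ^ (-(2 * τ))
        map_one' := by simp
        map_mul' := fun m n => by
          simp only [Nat.cast_mul]
          exact Real.mul_rpow (by positivity) (by positivity) }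
    have hg : ∀ n, g n = (n : ℝ) ^ (-(2 * τ)) := fun n => rfl
    have hg0 : ∀ n, 0 ≤ g n := fun n => by rw [hg]; positivity
    obtain ⟨g1, g2⟩ := EulerProduct.summable_and_hasSum_smoothNumbers_prod_primesBelow_geometric
      (f := g) (fun {p} hp => by
        rw [Real.norm_of_nonneg (hg0 _), hg]
        exact prime_rpow_lt_one hp (by linarith)) N
    have g3 : ∏ p ∈ N.primesBelow, (1 - ((p : ℝ) ^ (-τ)) ^ 2)⁻¹ = ∏ p ∈ N.primesBelow, (1 - g p)⁻¹ := by
      apply Finset.prod_congr rfl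
      intro p hp
      have hpp := Nat.prime_of_mem_primesBelow hp
      have hp0 : (0 : ℝ) < p := by exact_mod_cast hpp.pos
      rw [hg, ← Real.rpow_natCast, ← Real.rpow_mul hp0.le]
      congr 3
      push_cast
      ring
    rw [g3, ← g2.tsum_eq, tsum_subtype (Nat.smoothNumbers N) (fun n => g n)]
    have h5 : Summable ((Nat.smoothNumbers N).indicator (fun n => g n)) := by
      rw [← summable_subtype_iff_indicator]
      have : (fun m : Nat.smoothNumbers N => ‖g m‖) = (fun n => g n) ∘ Subtype.val := by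
        ext m
        simp [Real.norm_of_nonneg (hg0 _)]
      rw [← this]
      exact g1
    have h6 : ∑ n ∈ range N, (n : ℝ) ^ (-(2 * τ)) =
        ∑ n ∈ range N, (Nat.smoothNumbers N).indicator (fun n => g n) n := by
      apply Finset.sum_congr rfl
      intro n hn
      rcases Nat.eq_zero_or_pos n with h0 | h0
      · subst h0
        rw [Set.indicator_of_notMem (fun h => Nat.ne_zero_of_mem_smoothNumbers h rfl)]
        simp only [Nat.cast_zero]
        exact Real.zero_rpow (by linarith)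
      · rw [Set.indicator_of_mem (Nat.mem_smoothNumbers_of_lt h0 (Finset.mem_range.mp hn)), hg]
    rw [h6]
    exact h5.sum_le_tsum _ (fun n _ => Set.indicator_nonneg (fun n _ => hg0 n) n)
  have h1 : Summable (fun n : ℕ => (n : ℝ) ^ (-(2 * τ))) :=
    Real.summable_nat_rpow.mpr (by rw [hτ]; linarith)
  have h2 := (h1.hasSum.tendsto_sum_nat).pow 2
  exact le_of_tendsto' h2 key2

end Pool.Agent.MOFunctions
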