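import Pool.Agent.MOFunctions.CM

/-! The omega result for completely multiplicative functions with `|h(n)| ≤ 1/n`. -/

open Complex Filter Topology Finset
open scoped ComplexOrder

namespace Pool.Agent.MOFunctions

lemma norm_sum_cj (h : ℕ → ℂ) (n : ℕ) : ‖∑ k ∈ Icc 1 n, cj h k‖ = ‖∑ k ∈ Icc 1 n, h k‖ := by
  have : ∑ k ∈ Icc 1 n, cj h k = (starRingEnd ℂ) (∑ k ∈ Icc 1 n, h k) := by
    rw [map_sum]; rfl
  rw [this, Complex.norm_conj]

lemma norm_Phi_le {f : ℕ → ℂ} {B κ : ℝ} (hκ : κ ≤ 1)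
    (hT : ∀ N : ℕ, 1 ≤ N → ‖∑ n ∈ Icc 1 N, f n‖ ≤ B * (N : ℝ) ^ (-κ)) {y : ℝ} (hy : -κ < y) :
    ‖Phi f y‖ ≤ |y| * ∑' n : ℕ, ‖∑ k ∈ Icc 1 n, f k‖ * (n : ℝ) ^ (-y - 1) := by
  have h1 := (Phi_summable hT hy).mul_left |y|
  rw [← tsum_mul_left]
  refine tsum_of_norm_bounded h1.hasSum fun n => ?_
  have := Phi_term_le f (s := (y : ℂ)) (by simp; linarith) n
  simpa using this

lemma zeta_limit : Tendsto (fun η : ℝ => η * ∑' n : ℕ, (n : ℝ) ^ (-(1 + η))) (𝓝[>] 0) (𝓝 1) := by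
  have h1 := tendsto_sub_mul_tsum_nat_rpow
  have h2 : Tendsto (fun η : ℝ => 1 + η) (𝓝[>] 0) (𝓝[>] 1) := by
    refine tendsto_nhdsWithin_iff.mpr ⟨?_, ?_⟩
    · have : Tendsto (fun s : ℝ => 1 + s) (𝓝 0) (𝓝 (1 + 0)) :=
        (continuous_const.add continuous_id).tendsto 0
      rw [add_zero] at this
      exact this.mono_left nhdsWithin_le_nhds
    · filter_upwards [self_mem_nhdsWithin] with s hs
      have : 0 < s := hs
      simp [this]
  refine (h1.comp h2).congr fun η => ?_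
  simp only [Function.comp]
  congr 1
  · ring
  · congr 1
    ext n
    rw [Real.rpow_neg (by positivity), one_div]

/-- the main theorem, contrapositive form -/
lemma cm_omega {h : ℕ → ℂ} (hh : CM h) (hn : ∀ n, ‖h n‖ ≤ (n : ℝ)⁻¹) {c : ℝ} (hc : 0 ≤ c) {N₀ : ℕ}
    (hS : ∀ N : ℕ, N₀ ≤ N → 1 ≤ N → ‖∑ n ∈ Icc 1 N, h n‖ ≤ c * (N : ℝ) ^ (-(1 / 2 : ℝ))) :
    1 ≤ c * ‖riemannZeta (1 / 2)‖ := by
  -- a global bound
  set B : ℝ := c + ∑ n ∈ range N₀, ‖∑ k ∈ Icc 1 n, h k‖ * (n : ℝ) ^ (1 / 2 : ℝ) with hB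
  have hT : ∀ N : ℕ, 1 ≤ N → ‖∑ n ∈ Icc 1 N, h n‖ ≤ B * (N : ℝ) ^ (-(1 / 2 : ℝ)) := by
    intro N hN
    have hN0 : (0 : ℝ) < N := by exact_mod_cast hN
    rcases le_or_gt N₀ N with h1 | h1
    · refine (hS N h1 hN).trans ?_
      gcongr
      rw [hB]
      have : 0 ≤ ∑ n ∈ range N₀, ‖∑ k ∈ Icc 1 n, h k‖ * (n : ℝ) ^ (1 / 2 : ℝ) :=
        Finset.sum_nonneg fun n _ => by positivity
      linarith
    · have h2 : ‖∑ k ∈ Icc 1 N, h k‖ * (N : ℝ) ^ (1 / 2 : ℝ) ≤ B := by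
        have := Finset.single_le_sum (f := fun n : ℕ => ‖∑ k ∈ Icc 1 n, h k‖ * (n : ℝ) ^ (1 / 2 : ℝ))
          (fun n _ => by positivity) (Finset.mem_range.mpr h1)
        rw [hB]
        linarith
      rw [Real.rpow_neg hN0.le, ← div_eq_mul_inv, le_div_iff₀ (by positivity)]
      exact h2
  have hT' : ∀ N : ℕ, 1 ≤ N → ‖∑ n ∈ Icc 1 N, cj h n‖ ≤ B * (N : ℝ) ^ (-(1 / 2 : ℝ)) := by
    intro N hN
    rw [norm_sum_cj]
    exact hT N hN
  -- Landau
  have hH : DifferentiableOn ℂ (fun s => EE h s * EE (cj h) s) {s | -(1 / 2 : ℝ) < s.re} :=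
    (EE_differentiableOn (by norm_num) (by norm_num) hT).mul
      (EE_differentiableOn (by norm_num) (by norm_num) hT')
  have hcn : ∀ n, ‖cj h n‖ ≤ (n : ℝ)⁻¹ := fun n => by rw [norm_cj]; exact hn n
  have hLandau : ∀ y : ℝ, -(1 / 2 : ℝ) < y → LSeriesHasSum (bb h) y (EE h y * EE (cj h) y) := by
    intro y hy
    refine landau (b := bb h) (r := fun n => (bb h n).re) (fun n => ?_) (fun n => ?_)
      (H := fun s => EE h s * EE (cj h) s) (x := 1) hH (bb_summable hn (by simp)) (fun s hs => ?_) hy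
    · have := (Complex.le_def.mp (bb_nonneg hh hn n)).2
      apply Complex.ext
      · simp
      · simpa using this.symm
    · exact (Complex.le_def.mp (bb_nonneg hh hn n)).1
    · have hs0 : 0 < s.re := by linarith
      have hs1 : s ≠ 0 := by
        intro h0
        rw [h0] at hs0
        simp at hs0
      have hs2 : -(1 / 2 : ℝ) < s.re := by linarith
      rw [LSeries_bb hn hs0]
      rw [EE_of_ne h hs1, EE_of_ne (cj h) hs1, Phi_eq (by norm_num) hT hs2 (lsummable hn hs0),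
        Phi_eq (by norm_num) hT' hs2 (lsummable hcn hs0)]
  -- inequality for each y
  have hineq : ∀ y : ℝ, -(1 / 2 : ℝ) < y → y < 0 →
      ∑' n : ℕ, (n : ℝ) ^ (-(2 * (1 + y))) ≤ ‖riemannZeta (y + 1)‖ *
        (|y| * ∑' n : ℕ, ‖∑ k ∈ Icc 1 n, h k‖ * (n : ℝ) ^ (-y - 1)) := by
    intro y hy hy0
    have h1 := lower hh hn hy (hLandau y hy)
    have hy1 : (y : ℂ) ≠ 0 := by exact_mod_cast hy0.ne
    rw [EE_of_ne h hy1, EE_of_ne (cj h) hy1, norm_mul, norm_mul, norm_mul] at h1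
    have h2 := norm_Phi_le (by norm_num) hT hy
    have h3 := norm_Phi_le (by norm_num) hT' hy
    simp only [norm_sum_cj] at h3
    set Q := |y| * ∑' n : ℕ, ‖∑ k ∈ Icc 1 n, h k‖ * (n : ℝ) ^ (-y - 1) with hQ
    have hQ0 : 0 ≤ Q := (norm_nonneg _).trans h2
    have h4 : (∑' n : ℕ, (n : ℝ) ^ (-(2 * (1 + y)))) ^ 2 ≤ (‖riemannZeta (y + 1)‖ * Q) ^ 2 := by
      refine h1.trans ?_
      rw [sq]
      gcongr
    exact le_of_sq_le_sq h4 (by positivity)
  -- bound for the sum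
  set C₀ : ℝ := ∑ n ∈ range N₀, ‖∑ k ∈ Icc 1 n, h k‖ with hC₀
  have hbound : ∀ η : ℝ, 0 < η → η < 1 / 2 →
      ∑' n : ℕ, ‖∑ k ∈ Icc 1 n, h k‖ * (n : ℝ) ^ (-(-(1 / 2) + η) - 1) ≤
        C₀ + c * ∑' n : ℕ, (n : ℝ) ^ (-(1 + η)) := by
    intro η hη hη1
    have hs1 : Summable (fun n : ℕ => (n : ℝ) ^ (-(1 + η))) :=
      Real.summable_nat_rpow.mpr (by linarith)
    have hs2 : HasSum (fun n : ℕ => if n ∈ range N₀ then ‖∑ k ∈ Icc 1 n, h k‖ else 0) C₀ := by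
      have := hasSum_sum_of_ne_finset_zero (L := SummationFilter.unconditional ℕ)
        (f := fun n : ℕ => if n ∈ range N₀ then
        ‖∑ k ∈ Icc 1 n, h k‖ else 0) (s := range N₀) (fun n hn => by simp only [if_neg hn])
      rw [Finset.sum_congr rfl (fun n hn => by rw [if_pos hn])] at this
      exact this
    have hs3 := hs2.add (hs1.hasSum.mul_left c)
    rw [← hs3.tsum_eq]
    apply Summable.tsum_le_tsum _ (Phi_summable hT (by linarith)) hs3.summable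
    intro n
    rcases Nat.eq_zero_or_pos n with h0 | h0
    · subst h0
      simp only [Finset.Icc_eq_empty (show ¬ (1 ≤ 0) by omega), Finset.sum_empty, norm_zero, zero_mul]
      have : 0 ≤ ((0 : ℕ) : ℝ) ^ (-(1 + η)) := by positivity
      split_ifs <;> positivity
    · have hn1 : (1 : ℝ) ≤ n := by exact_mod_cast h0
      have hn0 : (0 : ℝ) < n := by linarith
      by_cases hnN : n ∈ range N₀
      · rw [if_pos hnN]
        have h1 : (n : ℝ) ^ (-(-(1 / 2) + η) - 1) ≤ 1 :=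
          Real.rpow_le_one_of_one_le_of_nonpos hn1 (by linarith)
        have h2 : 0 ≤ c * (n : ℝ) ^ (-(1 + η)) := by positivity
        have h3 : ‖∑ k ∈ Icc 1 n, h k‖ * (n : ℝ) ^ (-(-(1 / 2) + η) - 1) ≤
            ‖∑ k ∈ Icc 1 n, h k‖ * 1 := by gcongr
        linarith
      · rw [if_neg hnN, zero_add]
        have h1 : N₀ ≤ n := by simpa using hnN
        calc ‖∑ k ∈ Icc 1 n, h k‖ * (n : ℝ) ^ (-(-(1 / 2) + η) - 1)
            ≤ c * (n : ℝ) ^ (-(1 / 2 : ℝ)) * (n : ℝ) ^ (-(-(1 / 2) + η) - 1) := by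
              gcongr
              exact hS n h1 h0
          _ = c * (n : ℝ) ^ (-(1 + η)) := by
              rw [mul_assoc, ← Real.rpow_add hn0]
              congr 2
              ring
  -- the limit
  have hfinal : ∀ᶠ η : ℝ in 𝓝[>] 0, (1 / 2) * ((2 * η) * ∑' n : ℕ, (n : ℝ) ^ (-(1 + 2 * η))) ≤
      ‖riemannZeta (((-(1 / 2) + η : ℝ) : ℂ) + 1)‖ * (|-(1 / 2) + η| *
        (η * C₀ + c * (η * ∑' n : ℕ, (n : ℝ) ^ (-(1 + η))))) := by
    have e1 : ∀ᶠ η : ℝ in 𝓝[>] 0, η < 1 / 2 := by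
      have : Tendsto (fun σ : ℝ => σ) (𝓝[>] 0) (𝓝 0) :=
        (continuous_id.tendsto 0).mono_left nhdsWithin_le_nhds
      exact this.eventually_lt_const (by norm_num)
    filter_upwards [e1, self_mem_nhdsWithin] with η h1 h2
    have h2' : 0 < η := h2
    have h3 := hineq (-(1 / 2) + η) (by linarith) (by linarith)
    have h4 := hbound η h2' h1
    have h5 : ∑' n : ℕ, (n : ℝ) ^ (-(2 * (1 + (-(1 / 2) + η)))) = ∑' n : ℕ, (n : ℝ) ^ (-(1 + 2 * η)) := by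
      congr 1
      ext n
      congr 1
      ring
    rw [h5] at h3
    have h6 := h3.trans (mul_le_mul_of_nonneg_left (mul_le_mul_of_nonneg_left h4 (abs_nonneg _))
      (norm_nonneg _))
    have h7 := mul_le_mul_of_nonneg_left h6 h2'.le
    calc (1 / 2) * ((2 * η) * ∑' n : ℕ, (n : ℝ) ^ (-(1 + 2 * η)))
        = η * ∑' n : ℕ, (n : ℝ) ^ (-(1 + 2 * η)) := by ring
      _ ≤ _ := h7
      _ = _ := by ring
  have hl : Tendsto (fun η : ℝ => (1 / 2) * ((2 * η) * ∑' n : ℕ, (n : ℝ) ^ (-(1 + 2 * η))))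
      (𝓝[>] 0) (𝓝 (1 / 2 * 1)) := by
    apply Tendsto.const_mul
    have h1 : Tendsto (fun η : ℝ => 2 * η) (𝓝[>] 0) (𝓝[>] 0) := by
      refine tendsto_nhdsWithin_iff.mpr ⟨?_, ?_⟩
      · have : Tendsto (fun s : ℝ => 2 * s) (𝓝 0) (𝓝 (2 * 0)) :=
          (continuous_const.mul continuous_id).tendsto 0
        rw [mul_zero] at this
        exact this.mono_left nhdsWithin_le_nhds
      · filter_upwards [self_mem_nhdsWithin] with s hs
        have : 0 < s := hs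
        simp [this]
    exact zeta_limit.comp h1
  have hr : Tendsto (fun η : ℝ => ‖riemannZeta (((-(1 / 2) + η : ℝ) : ℂ) + 1)‖ * (|-(1 / 2) + η| *
        (η * C₀ + c * (η * ∑' n : ℕ, (n : ℝ) ^ (-(1 + η)))))) (𝓝[>] 0)
      (𝓝 (‖riemannZeta (1 / 2)‖ * (|-(1 / 2) + 0| * (0 * C₀ + c * 1)))) := by
    have hid : Tendsto (fun η : ℝ => η) (𝓝[>] 0) (𝓝 0) :=
      (continuous_id.tendsto 0).mono_left nhdsWithin_le_nhds
    apply Tendsto.mul
    · apply Tendsto.norm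
      have h1 : Tendsto (fun η : ℝ => ((-(1 / 2) + η : ℝ) : ℂ) + 1) (𝓝[>] 0) (𝓝 (1 / 2)) := by
        have h2 : Tendsto (fun η : ℝ => ((-(1 / 2) + η : ℝ) : ℂ) + 1) (𝓝[>] 0)
            (𝓝 (((-(1 / 2) + 0 : ℝ) : ℂ) + 1)) :=
          ((Complex.continuous_ofReal.tendsto _).comp (hid.const_add _)).add_const 1
        have h3 : (((-(1 / 2) + 0 : ℝ) : ℂ) + 1) = 1 / 2 := by
          push_cast; ring
        rwa [h3] at h2
      have h4 : ContinuousAt riemannZeta (1 / 2) := by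
        apply (differentiableAt_riemannZeta _).continuousAt
        norm_num
      exact h4.tendsto.comp h1
    · apply Tendsto.mul
      · exact (hid.const_add _).abs
      · exact (hid.mul_const _).add (zeta_limit.const_mul c)
  have h1 := le_of_tendsto_of_tendsto hl hr hfinal
  have h2 : |-(1 / 2 : ℝ) + 0| = 1 / 2 := by norm_num
  rw [h2] at h1
  nlinarith

end Pool.Agent.MOFunctions
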