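import Pool.Agent.MOFunctions.Basic

/-! Analytic continuation of a Dirichlet series with small partial sums. -/

open Complex Filter Topology Finset

namespace Pool.Agent.MOFunctions

/-- Abel summation with complex weights -/
lemma abel_identity' (a : ℕ → ℂ) (w : ℕ → ℂ) (N : ℕ) :
    ∑ n ∈ Icc 1 N, a n * w n =
      (∑ n ∈ Icc 1 N, a n) * w (N + 1) +
        ∑ n ∈ Icc 1 N, (∑ k ∈ Icc 1 n, a k) * (w n - w (n + 1)) := by
  induction N with
  | zero => simp
  | succ N ih =>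
    rw [Finset.sum_Icc_succ_top (by omega), ih, Finset.sum_Icc_succ_top (by omega),
      Finset.sum_Icc_succ_top (f := fun n => (∑ k ∈ Icc 1 n, a k) * ((w n - w (n + 1))))
        (by omega), Finset.sum_Icc_succ_top (f := a) (by omega)]
    ring

lemma cpow_diff {s : ℂ} (hs : -1 ≤ s.re) {n : ℕ} (hn : 1 ≤ n) :
    ‖(n : ℂ) ^ (-s) - ((n + 1 : ℕ) : ℂ) ^ (-s)‖ ≤ ‖s‖ * (n : ℝ) ^ (-s.re - 1) := by
  have hn' : (1 : ℝ) ≤ n := by exact_mod_cast hn
  rcases eq_or_ne s 0 with h | h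
  · subst h; simp
  have h1 := norm_image_sub_le_of_norm_deriv_le_segment' (f := fun y : ℝ => (y : ℂ) ^ (-s))
    (f' := fun y : ℝ => (-s) * (y : ℂ) ^ (-s - 1)) (a := (n : ℝ)) (b := n + 1)
    (C := ‖s‖ * (n : ℝ) ^ (-s.re - 1)) (fun x hx => ?_) (fun x hx => ?_) (n + 1)
    (by constructor <;> linarith)
  · rw [norm_sub_rev]
    have : (n : ℝ) + 1 - n = 1 := by ring
    rw [this, mul_one] at h1
    simpa using h1
  · exact (hasDerivAt_ofReal_cpow_const (by linarith [hx.1]) (neg_ne_zero.mpr h)).hasDerivWithinAt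
  · have hx0 : 0 < x := by linarith [hx.1]
    rw [norm_mul, norm_neg, Complex.norm_cpow_eq_rpow_re_of_pos hx0]
    have h2 : (-s - 1).re = -s.re - 1 := by simp
    rw [h2]
    gcongr ‖s‖ * ?_
    exact Real.rpow_le_rpow_of_nonpos (by linarith) hx.1 (by linarith)

/-- The Abel-summed Dirichlet series of `f`. -/
noncomputable def Phi (f : ℕ → ℂ) (s : ℂ) : ℂ :=
  ∑' n : ℕ, (∑ k ∈ Icc 1 n, f k) * ((n : ℂ) ^ (-s) - ((n + 1 : ℕ) : ℂ) ^ (-s))

lemma Phi_zero (f : ℕ → ℂ) : Phi f 0 = 0 := by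
  simp [Phi]

lemma Phi_term_le (f : ℕ → ℂ) {s : ℂ} (hs : -1 ≤ s.re) (n : ℕ) :
    ‖(∑ k ∈ Icc 1 n, f k) * ((n : ℂ) ^ (-s) - ((n + 1 : ℕ) : ℂ) ^ (-s))‖ ≤
      ‖s‖ * (‖∑ k ∈ Icc 1 n, f k‖ * (n : ℝ) ^ (-s.re - 1)) := by
  rcases Nat.eq_zero_or_pos n with h | h
  · subst h; simp
  · rw [norm_mul]
    calc ‖∑ k ∈ Icc 1 n, f k‖ * ‖(n : ℂ) ^ (-s) - ((n + 1 : ℕ) : ℂ) ^ (-s)‖
        ≤ ‖∑ k ∈ Icc 1 n, f k‖ * (‖s‖ * (n : ℝ) ^ (-s.re - 1)) := by
          gcongr
          exact cpow_diff hs h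
      _ = _ := by ring

lemma Phi_term_le' {f : ℕ → ℂ} {B κ : ℝ}
    (hT : ∀ N : ℕ, 1 ≤ N → ‖∑ n ∈ Icc 1 N, f n‖ ≤ B * (N : ℝ) ^ (-κ)) {σ : ℝ} (n : ℕ) :
    ‖∑ k ∈ Icc 1 n, f k‖ * (n : ℝ) ^ (-σ - 1) ≤ B * (n : ℝ) ^ (-(1 + κ + σ)) := by
  rcases Nat.eq_zero_or_pos n with h | h
  · subst h
    have hB : 0 ≤ B := by
      have := (norm_nonneg _).trans (hT 1 le_rfl)
      simpa using this
    have : 0 ≤ ((0 : ℕ) : ℝ) ^ (-(1 + κ + σ)) := by positivity
    simp only [Finset.Icc_eq_empty (show ¬ (1 ≤ 0) by omega), Finset.sum_empty, norm_zero, zero_mul]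
    positivity
  · have hn : (0 : ℝ) < n := by exact_mod_cast h
    calc ‖∑ k ∈ Icc 1 n, f k‖ * (n : ℝ) ^ (-σ - 1) ≤ B * (n : ℝ) ^ (-κ) * (n : ℝ) ^ (-σ - 1) := by
          gcongr
          exact hT n h
      _ = B * (n : ℝ) ^ (-(1 + κ + σ)) := by
          rw [mul_assoc, ← Real.rpow_add hn]
          congr 2
          ring

lemma Phi_summable {f : ℕ → ℂ} {B κ : ℝ}
    (hT : ∀ N : ℕ, 1 ≤ N → ‖∑ n ∈ Icc 1 N, f n‖ ≤ B * (N : ℝ) ^ (-κ)) {σ : ℝ} (hσ : -κ < σ) :
    Summable (fun n : ℕ => ‖∑ k ∈ Icc 1 n, f k‖ * (n : ℝ) ^ (-σ - 1)) := by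
  refine Summable.of_nonneg_of_le (fun n => by positivity) (Phi_term_le' hT) ?_
  exact (Real.summable_nat_rpow.mpr (by linarith)).mul_left B

lemma Phi_differentiableOn {f : ℕ → ℂ} {B κ : ℝ} (hκ : κ ≤ 1)
    (hT : ∀ N : ℕ, 1 ≤ N → ‖∑ n ∈ Icc 1 N, f n‖ ≤ B * (N : ℝ) ^ (-κ)) :
    DifferentiableOn ℂ (Phi f) {s | -κ < s.re} := by
  intro s hs
  have hs' : -κ < s.re := hs
  obtain ⟨τ, hτ1, hτ2⟩ := exists_between hs'
  set R : ℝ := ‖s‖ + 1 with hR
  set U : Set ℂ := {w | τ < w.re} ∩ Metric.ball 0 R with hU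
  have hUo : IsOpen U :=
    (isOpen_lt continuous_const Complex.continuous_re).inter Metric.isOpen_ball
  have hsU : s ∈ U := ⟨hτ2, by simp [hR]⟩
  have h1 : DifferentiableOn ℂ (Phi f) U := by
    have h2 := (Phi_summable hT hτ1).mul_left R
    refine differentiableOn_tsum_of_summable_norm h2 (fun n => ?_) hUo (fun n w hw => ?_)
    · intro w _
      apply DifferentiableAt.differentiableWithinAt
      rcases Nat.eq_zero_or_pos n with h | h
      · subst h
        simp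
      · apply DifferentiableAt.const_mul
        apply DifferentiableAt.sub
        · exact (differentiableAt_id.neg).const_cpow (Or.inl (by exact_mod_cast h.ne'))
        · exact (differentiableAt_id.neg).const_cpow (Or.inl (by exact_mod_cast (Nat.succ_ne_zero n)))
    · have hw1 : τ < w.re := hw.1
      have hw2 : ‖w‖ < R := by simpa using hw.2
      refine (Phi_term_le f (by linarith) n).trans ?_
      rcases Nat.eq_zero_or_pos n with h | h
      · subst h
        simp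
      · have hn : (1 : ℝ) ≤ n := by exact_mod_cast h
        gcongr
  exact (h1.differentiableAt (hUo.mem_nhds hsU)).differentiableWithinAt

lemma Phi_eq {f : ℕ → ℂ} {B κ : ℝ} (hκ : κ ≤ 1)
    (hT : ∀ N : ℕ, 1 ≤ N → ‖∑ n ∈ Icc 1 N, f n‖ ≤ B * (N : ℝ) ^ (-κ)) {s : ℂ} (hs : -κ < s.re)
    (hsum : LSeriesSummable f s) : Phi f s = LSeries f s := by
  have h1 : Tendsto (fun N : ℕ => ∑ n ∈ Icc 1 N, f n * (n : ℂ) ^ (-s)) atTop (𝓝 (LSeries f s)) := by
    have h2 := hsum.hasSum.tendsto_sum_nat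
    have h3 := h2.comp (tendsto_add_atTop_nat 1)
    refine h3.congr fun N => ?_
    simp only [Function.comp]
    rw [Finset.range_eq_Ico, Finset.sum_eq_sum_Ico_succ_bot (by omega)]
    simp only [LSeries.term_zero, zero_add]
    apply Finset.sum_congr rfl
    intro n hn
    rw [Finset.mem_Ico] at hn
    rw [LSeries.term_of_ne_zero (by omega), div_eq_mul_inv, ← Complex.cpow_neg]
  have h4 : Tendsto (fun N : ℕ => ∑ n ∈ Icc 1 N,
      (∑ k ∈ Icc 1 n, f k) * ((n : ℂ) ^ (-s) - ((n + 1 : ℕ) : ℂ) ^ (-s))) atTop (𝓝 (Phi f s)) := by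
    have h5 : Summable (fun n : ℕ => (∑ k ∈ Icc 1 n, f k) *
        ((n : ℂ) ^ (-s) - ((n + 1 : ℕ) : ℂ) ^ (-s))) := by
      apply Summable.of_norm
      refine Summable.of_nonneg_of_le (fun n => norm_nonneg _) (Phi_term_le f (by linarith)) ?_
      exact (Phi_summable hT hs).mul_left _
    have h2 := h5.hasSum.tendsto_sum_nat
    have h3 := h2.comp (tendsto_add_atTop_nat 1)
    refine h3.congr fun N => ?_
    simp only [Function.comp]
    rw [Finset.range_eq_Ico, Finset.sum_eq_sum_Ico_succ_bot (by omega)]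
    simp
    rfl
  have h6 : Tendsto (fun N : ℕ => (∑ n ∈ Icc 1 N, f n) * ((N + 1 : ℕ) : ℂ) ^ (-s)) atTop (𝓝 0) := by
    rw [tendsto_zero_iff_norm_tendsto_zero]
    have h7 : Tendsto (fun N : ℕ => B * (N : ℝ) ^ (-κ) * ((N + 1 : ℕ) : ℝ) ^ (-s.re)) atTop (𝓝 0) := by
      have h8 : Tendsto (fun N : ℕ => B * ((N : ℝ) ^ (-(κ + s.re)) *
          ((N + 1 : ℕ) / (N : ℝ)) ^ (-s.re))) atTop (𝓝 (B * (0 * 1 ^ (-s.re)))) := by
        apply Tendsto.const_mul
        apply Tendsto.mul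
        · exact (tendsto_rpow_neg_atTop (by linarith)).comp tendsto_natCast_atTop_atTop
        · have h9 : Tendsto (fun N : ℕ => ((N + 1 : ℕ) : ℝ) / (N : ℝ)) atTop (𝓝 1) := by
            have := tendsto_natCast_div_add_atTop (𝕜 := ℝ) 1
            have := this.inv₀ one_ne_zero
            rw [inv_one] at this
            refine this.congr fun N => ?_
            rw [inv_div]
            push_cast
            rfl
          exact h9.rpow_const (Or.inl one_ne_zero)
      rw [zero_mul, mul_zero] at h8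
      refine h8.congr' ?_
      filter_upwards [eventually_ge_atTop 1] with N hN
      have hN' : (0 : ℝ) < N := by exact_mod_cast hN
      rw [Real.div_rpow (by positivity) hN'.le, neg_add, Real.rpow_add hN']
      have : (N : ℝ) ^ (-s.re) ≠ 0 := (Real.rpow_pos_of_pos hN' _).ne'
      field_simp
    refine squeeze_zero_norm' ?_ h7
    filter_upwards [eventually_ge_atTop 1] with N hN
    rw [norm_norm, norm_mul, Complex.norm_natCast_cpow_of_pos (by omega), Complex.neg_re]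
    exact mul_le_mul_of_nonneg_right (hT N hN) (by positivity)
  have h10 := h6.add h4
  rw [zero_add] at h10
  refine tendsto_nhds_unique h10 (h1.congr fun N => ?_)
  exact abel_identity' f (fun n => (n : ℂ) ^ (-s)) N

/-- `s ζ(s+1)` with the removable singularity removed -/
noncomputable def Z1 : ℂ → ℂ := Function.update (fun s => s * riemannZeta (s + 1)) 0 1

lemma Z1_of_ne {s : ℂ} (hs : s ≠ 0) : Z1 s = s * riemannZeta (s + 1) :=
  Function.update_of_ne hs _ _

lemma differentiable_Z1 : Differentiable ℂ Z1 := by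
  rw [← differentiableOn_univ,
    ← differentiableOn_compl_singleton_and_continuousAt_iff (c := 0) Filter.univ_mem]
  refine ⟨?_, ?_⟩
  · intro s hs
    have hs0 : s ≠ 0 := by simpa using hs
    have h1 : DifferentiableAt ℂ (fun s : ℂ => s * riemannZeta (s + 1)) s := by
      apply DifferentiableAt.mul differentiableAt_id
      have h2 : DifferentiableAt ℂ riemannZeta (s + 1) :=
        differentiableAt_riemannZeta (by simpa using hs0)
      exact h2.comp s (differentiableAt_id.add_const 1)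
    have h3 : DifferentiableAt ℂ Z1 s := by
      refine h1.congr_of_eventuallyEq ?_
      filter_upwards [isOpen_ne.mem_nhds hs0] with w hw
      exact Z1_of_ne hw
    exact h3.differentiableWithinAt
  · rw [← continuousWithinAt_compl_self, ContinuousWithinAt]
    have h1 : Z1 0 = 1 := Function.update_self _ _ _
    rw [h1]
    have h2 := riemannZeta_residue_one
    have h3 : Tendsto (fun s : ℂ => s + 1) (𝓝[≠] 0) (𝓝[≠] 1) := by
      refine tendsto_nhdsWithin_iff.mpr ⟨?_, ?_⟩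
      · have : Tendsto (fun s : ℂ => s + 1) (𝓝 0) (𝓝 (0 + 1)) :=
          (continuous_id.add continuous_const).tendsto 0
        rw [zero_add] at this
        exact this.mono_left nhdsWithin_le_nhds
      · filter_upwards [self_mem_nhdsWithin] with s hs
        simpa using hs
    refine (h2.comp h3).congr' ?_
    filter_upwards [self_mem_nhdsWithin] with s hs
    rw [Z1_of_ne (by simpa using hs)]
    simp

/-- the extension of `ζ(s+1) F(s)` to a neighbourhood of `0` -/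
noncomputable def EE (f : ℕ → ℂ) (s : ℂ) : ℂ := Z1 s * dslope (Phi f) 0 s

lemma EE_of_ne (f : ℕ → ℂ) {s : ℂ} (hs : s ≠ 0) : EE f s = riemannZeta (s + 1) * Phi f s := by
  rw [EE, Z1_of_ne hs, dslope_of_ne _ hs, slope_def_field, Phi_zero]
  field_simp
  ring

lemma EE_differentiableOn {f : ℕ → ℂ} {B κ : ℝ} (hκ0 : 0 < κ) (hκ : κ ≤ 1)
    (hT : ∀ N : ℕ, 1 ≤ N → ‖∑ n ∈ Icc 1 N, f n‖ ≤ B * (N : ℝ) ^ (-κ)) :
    DifferentiableOn ℂ (EE f) {s | -κ < s.re} := by
  have hopen : IsOpen {s : ℂ | -κ < s.re} := isOpen_lt continuous_const Complex.continuous_re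
  apply differentiable_Z1.differentiableOn.mul
  rw [Complex.differentiableOn_dslope (hopen.mem_nhds (by simpa using hκ0))]
  exact Phi_differentiableOn hκ hT

end Pool.Agent.MOFunctions
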