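import Mathlib

open Filter Topology

namespace Pool.Agent.MOFunctions

/-- `f` is an MO function. An arithmetic function is modelled by `f : ℕ → ℂ`; the junk value `f 0`
is never used. `map_one`, `map_mul` say that `f` is multiplicative on `{1, 2, ...}`;
`sum_eq_zero` is condition (i), `sum_{n ≥ 1} f(n)` converges, with sum `0`; `euler_factor` is
condition (ii), for every prime `p` the series `sum_{k ≥ 0} f(p^k)` converges to a nonzero value. -/
structure IsMO (f : ℕ → ℂ) : Prop where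
  map_one : f 1 = 1
  map_mul : ∀ m n : ℕ, 0 < m → 0 < n → Nat.Coprime m n → f (m * n) = f m * f n
  sum_eq_zero : Tendsto (fun N : ℕ => ∑ n ∈ Finset.Icc 1 N, f n) atTop (𝓝 0)
  euler_factor : ∀ p : ℕ, p.Prime → ∃ L : ℂ, L ≠ 0 ∧
    Tendsto (fun N : ℕ => ∑ k ∈ Finset.range N, f (p ^ k)) atTop (𝓝 L)

/-- The partial sum `S_f(x) = sum_{1 ≤ n ≤ x} f(n)` for real `x`. -/
noncomputable def S (f : ℕ → ℂ) (x : ℝ) : ℂ := ∑ n ∈ Finset.Icc 1 ⌊x⌋₊, f n

end Pool.Agent.MOFunctions
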