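import Pool.Agent.MOFunctions.CMOmega

/-! Removing finitely many primes. -/

open Complex Filter Topology Finset

namespace Pool.Agent.MOFunctions

/-- remove the prime `q` -/
noncomputable def rem (q : ℕ) (h : ℕ → ℂ) (n : ℕ) : ℂ := if q ∣ n then 0 else h n

lemma cm_rem {q : ℕ} (hq : q.Prime) {h : ℕ → ℂ} (hh : CM h) : CM (rem q h) := by
  refine ⟨by simp [rem], ?_, fun m n => ?_⟩
  · rw [rem, if_neg, hh.one]
    intro h1
    exact hq.one_lt.ne' (Nat.dvd_one.mp h1)
  · simp only [rem, hq.dvd_mul]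
    by_cases h1 : q ∣ m
    · simp [h1]
    · by_cases h2 : q ∣ n
      · simp [h2]
      · simp [h1, h2, hh.mul]

lemma sum_rem {q : ℕ} (hq : q.Prime) {h : ℕ → ℂ} (hh : CM h) (N : ℕ) :
    ∑ n ∈ Icc 1 N, rem q h n = ∑ n ∈ Icc 1 N, h n - h q * ∑ n ∈ Icc 1 (N / q), h n := by
  have h1 : h q * ∑ n ∈ Icc 1 (N / q), h n = ∑ n ∈ (Icc 1 N).filter (q ∣ ·), h n := by
    rw [Finset.mul_sum]
    refine Finset.sum_bij (fun n _ => q * n) ?_ ?_ ?_ ?_
    · intro n hn
      rw [Finset.mem_Icc] at hn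
      rw [Finset.mem_filter, Finset.mem_Icc]
      refine ⟨⟨?_, ?_⟩, Dvd.intro _ rfl⟩
      · exact Nat.mul_pos hq.pos hn.1
      · have := Nat.mul_le_mul_left q hn.2
        exact this.trans (Nat.mul_div_le N q)
    · intro a _ b _ hab
      exact Nat.eq_of_mul_eq_mul_left hq.pos hab
    · intro m hm
      rw [Finset.mem_filter, Finset.mem_Icc] at hm
      obtain ⟨⟨hm1, hm2⟩, k, rfl⟩ := hm
      refine ⟨k, ?_, rfl⟩
      rw [Finset.mem_Icc]
      refine ⟨?_, ?_⟩
      · exact Nat.pos_of_mul_pos_left hm1 |> fun _ => Nat.pos_of_ne_zero (by rintro rfl; simp at hm1)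
      · rw [Nat.le_div_iff_mul_le hq.pos, mul_comm]
        exact hm2
    · intro n _
      rw [hh.mul]
  rw [h1, Finset.sum_filter, ← Finset.sum_sub_distrib]
  apply Finset.sum_congr rfl
  intro n _
  simp only [rem]
  split_ifs <;> simp

/-- general statement with a finite exceptional set of primes -/
lemma cm_omega_finite (E : Finset ℕ) : ∀ {h : ℕ → ℂ}, CM h → (∀ p ∈ E, p.Prime) →
    (∀ p : ℕ, p.Prime → p ∉ E → ‖h p‖ ≤ (p : ℝ)⁻¹) → ∀ {c : ℝ}, 0 ≤ c →
    (∀ᶠ x : ℝ in atTop, ‖S h x‖ ≤ c * x ^ (-(1 / 2 : ℝ))) →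
    1 ≤ c * (‖riemannZeta (1 / 2)‖ * ∏ p ∈ E, (1 + √p * ‖h p‖)) := by
  induction E using Finset.induction_on with
  | empty =>
    intro h hh _ hp c hc hS
    rw [Finset.prod_empty, mul_one]
    rw [eventually_atTop] at hS
    obtain ⟨x₀, hx₀⟩ := hS
    obtain ⟨N₀, hN₀⟩ := exists_nat_ge x₀
    refine cm_omega hh (norm_le_of_primes hh fun p h1 => hp p h1 (by simp)) hc (N₀ := N₀)
      fun N hN _ => ?_
    have h1 := hx₀ N (hN₀.trans (by exact_mod_cast hN))
    simpa [S] using h1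
  | insert q E hqE ih =>
    intro h hh hE hp c hc hS
    have hq : q.Prime := hE q (Finset.mem_insert_self _ _)
    have hq0 : (0 : ℝ) < q := by exact_mod_cast hq.pos
    have h1 : ∀ᶠ x : ℝ in atTop, ‖S (rem q h) x‖ ≤ (c * (1 + √q * ‖h q‖)) * x ^ (-(1 / 2 : ℝ)) := by
      have h2 : ∀ᶠ x : ℝ in atTop, ‖S h (x / q)‖ ≤ c * (x / q) ^ (-(1 / 2 : ℝ)) :=
        (tendsto_id.atTop_div_const hq0).eventually hS
      filter_upwards [hS, h2, eventually_gt_atTop 0] with x hx1 hx2 hx0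
      have h3 : S (rem q h) x = S h x - h q * S h (x / q) := by
        rw [S, S, S, sum_rem hq hh, Nat.floor_div_natCast]
      rw [h3]
      have h4 : (x / q) ^ (-(1 / 2 : ℝ)) = √q * x ^ (-(1 / 2 : ℝ)) := by
        rw [Real.div_rpow hx0.le hq0.le, Real.sqrt_eq_rpow, Real.rpow_neg hq0.le (1 / 2)]
        field_simp
      rw [h4] at hx2
      calc ‖S h x - h q * S h (x / q)‖ ≤ ‖S h x‖ + ‖h q‖ * ‖S h (x / q)‖ := by
            refine (norm_sub_le _ _).trans ?_
            rw [norm_mul]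
        _ ≤ c * x ^ (-(1 / 2 : ℝ)) + ‖h q‖ * (c * (√q * x ^ (-(1 / 2 : ℝ)))) := by gcongr
        _ = _ := by ring
    have h5 := ih (cm_rem hq hh) (fun p h => hE p (Finset.mem_insert_of_mem h)) (fun p h6 h7 => ?_)
      (c := c * (1 + √q * ‖h q‖)) (by positivity) h1
    · rw [Finset.prod_insert hqE]
      have h6 : ∏ p ∈ E, (1 + √p * ‖rem q h p‖) = ∏ p ∈ E, (1 + √p * ‖h p‖) := by
        apply Finset.prod_congr rfl
        intro p hpE
        have hpp := hE p (Finset.mem_insert_of_mem hpE)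
        have : ¬ q ∣ p := by
          intro hd
          rw [Nat.prime_dvd_prime_iff_eq hq hpp] at hd
          exact hqE (hd ▸ hpE)
        rw [rem, if_neg this]
      rw [h6] at h5
      calc 1 ≤ _ := h5
        _ = _ := by ring
    · rcases eq_or_ne p q with h8 | h8
      · subst h8
        rw [rem, if_pos dvd_rfl, norm_zero]
        positivity
      · have : ¬ q ∣ p := by
          intro hd
          rw [Nat.prime_dvd_prime_iff_eq hq h6] at hd
          exact h8 hd.symm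
        rw [rem, if_neg this]
        exact hp p h6 (by simp [h8, h7])

end Pool.Agent.MOFunctions
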